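import Mathlib
import Pool.Agent.H55Z.Iso.Trans

set_option autoImplicit false

namespace Pool.Agent.H55Z.Iso

open MeasureTheory Set Filter Topology Metric
open scoped ENNReal

abbrev W := (ℝ × ℝ) × ℝ

noncomputable def pt (x y z : ℝ) : V := !₂[x, y, z]

@[simp] lemma pt_0 (x y z : ℝ) : pt x y z 0 = x := rfl
@[simp] lemma pt_1 (x y z : ℝ) : pt x y z 1 = y := rfl
@[simp] lemma pt_2 (x y z : ℝ) : pt x y z 2 = z := rfl

lemma pt_eq (x y z : ℝ) : pt x y z = x • ee 0 + y • ee 1 + z • ee 2 := by
  ext i; fin_cases i <;> simp [pt]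

lemma pt_eta (p : V) : pt (p 0) (p 1) (p 2) = p := by
  ext i; fin_cases i <;> simp [pt]

lemma mp_coord : MeasurePreserving (fun p : V => (((p 1, p 2), p 0) : W)) volume volume := by
  have h1 := PiLp.volume_preserving_ofLp (Fin 3)
  have h2 := volume_preserving_piFinSuccAbove (fun _ : Fin 3 => ℝ) 0
  have h3 := (MeasurePreserving.id (volume : Measure ℝ)).prod (volume_preserving_finTwoArrow ℝ)
  have h4 : MeasurePreserving (Prod.swap : ℝ × (ℝ × ℝ) → W) (volume.prod volume)
      (volume.prod volume) := Measure.measurePreserving_swap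
  exact h4.comp (h3.comp (h2.comp h1))

/-- the shear as a homeomorphism -/
noncomputable def shear (u : ℝ → ℝ) (hu : Continuous u) : W ≃ₜ V where
  toFun w := pt (w.2 + u w.1.1) w.1.1 w.1.2
  invFun p := ((p 1, p 2), p 0 - u (p 1))
  left_inv w := by simp
  right_inv p := by simp [pt_eta]
  continuous_toFun := by
    simp only [pt_eq]; fun_prop
  continuous_invFun := by fun_prop

lemma shear_apply (u : ℝ → ℝ) (hu : Continuous u) (w : W) :
    shear u hu w = pt (w.2 + u w.1.1) w.1.1 w.1.2 := rfl

lemma mp_shear (u : ℝ → ℝ) (hu : Continuous u) :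
    MeasurePreserving (shear u hu) volume volume := by
  have h1 : MeasurePreserving (fun w : W => ((w.1, w.2 - u w.1.1) : W)) (volume.prod volume)
      (volume.prod volume) := by
    refine (MeasurePreserving.id (volume : Measure (ℝ × ℝ))).skew_product
      (g := fun q s => s - u q.1) (by fun_prop) (Eventually.of_forall fun q => ?_)
    exact (measurePreserving_sub_right volume (u q.1)).map_eq
  have h2 : MeasurePreserving (shear u hu).toMeasurableEquiv.symm volume volume :=
    h1.comp mp_coord
  exact h2.symm _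

lemma integral_line_zero {g g' : ℝ × ℝ → ℝ} {v : ℝ × ℝ} (hg : Integrable g) (hg' : Integrable g')
    (h : ∀ q, HasLineDerivAt ℝ g (g' q) q v) : ∫ q, g' q = 0 := by
  have := integral_bilinear_hasLineDerivAt_right_eq_neg_left_of_integrable
    (μ := (volume : Measure (ℝ × ℝ))) (f := fun _ => (1 : ℝ)) (f' := fun _ => (0 : ℝ))
    (g := g) (g' := g') (v := v) (B := ContinuousLinearMap.mul ℝ ℝ) (by simp) (by simpa using hg')
    (by simpa using hg) (fun x _ => by
      simpa using (hasFDerivAt_const (1 : ℝ) x).hasLineDerivAt v) (fun x _ => h x)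
  simpa using this

lemma hcs_slice1 {f : W → ℝ} (hf : HasCompactSupport f) (s : ℝ) :
    HasCompactSupport fun q : ℝ × ℝ => f (q, s) := by
  refine HasCompactSupport.intro (hf.isCompact.image continuous_fst) fun q hq => ?_
  by_contra h
  exact hq ⟨(q, s), subset_tsupport _ h, rfl⟩

lemma hcs_slice2 {f : W → ℝ} (hf : HasCompactSupport f) (q : ℝ × ℝ) :
    HasCompactSupport fun s : ℝ => f (q, s) := by
  refine HasCompactSupport.intro (hf.isCompact.image continuous_snd) fun s hs => ?_
  by_contra h
  exact hs ⟨(q, s), subset_tsupport _ h, rfl⟩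

theorem div_shear {φ : V → V} (hφ : ContDiff ℝ 1 φ) (hc : HasCompactSupport φ) {u u' : ℝ → ℝ}
    (hu : ∀ y, HasDerivAt u (u' y) y) (hu' : Continuous u') :
    ∫ p in {p : V | p 0 < u (p 1)}, dv φ p =
      ∫ q : ℝ × ℝ, (φ (pt (u q.1) q.1 q.2) 0 - u' q.1 * φ (pt (u q.1) q.1 q.2) 1) := by
  have huc : Continuous u := continuous_iff_continuousAt.2 fun y => (hu y).continuousAt
  set T := shear u huc with hT
  have hTc : Continuous T := T.continuous
  have hpre : T ⁻¹' {p : V | p 0 < u (p 1)} = (univ : Set (ℝ × ℝ)) ×ˢ Iio (0 : ℝ) := by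
    ext w; simp [hT, shear_apply]
  rw [← (mp_shear u huc).setIntegral_preimage_emb T.measurableEmbedding, hpre]
  have hD := hφ.continuous_fderiv (by norm_num)
  have hdiff := hφ.differentiable (by norm_num)
  let D : W → V → Fin 3 → ℝ := fun w v i => fderiv ℝ φ (T w) v i
  let a : W → ℝ := fun w => D w (ee 0) 0 - u' w.1.1 * D w (ee 0) 1
  let b : W → ℝ := fun w => u' w.1.1 * D w (ee 0) 1 + D w (ee 1) 1
  let c : W → ℝ := fun w => D w (ee 2) 2
  have hsplit : ∀ w, dv φ (T w) = a w + b w + c w := by
    intro w; rw [dv_eq, Fin.sum_univ_three]; simp only [a, b, c, D]; ring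
  have hK : IsCompact (T ⁻¹' tsupport φ) := T.isCompact_preimage.2 hc.isCompact
  have hD0 : ∀ w, w ∉ T ⁻¹' tsupport φ → ∀ v i, D w v i = 0 := by
    intro w hw v i
    have : fderiv ℝ φ (T w) = 0 := by
      by_contra h1
      exact hw (support_fderiv_subset ℝ h1)
    simp [D, this]
  have hφ0 : ∀ w, w ∉ T ⁻¹' tsupport φ → φ (T w) = 0 := fun w hw =>
    image_eq_zero_of_notMem_tsupport hw
  have hac : Continuous a := by simp only [a, D]; fun_prop
  have hbc : Continuous b := by simp only [b, D]; fun_prop
  have hcc : Continuous c := by simp only [c, D]; fun_prop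
  have has : HasCompactSupport a := HasCompactSupport.intro hK fun w hw => by
    simp [a, hD0 w hw]
  have hbs : HasCompactSupport b := HasCompactSupport.intro hK fun w hw => by
    simp [b, hD0 w hw]
  have hcs : HasCompactSupport c := HasCompactSupport.intro hK fun w hw => by
    simp [c, hD0 w hw]
  have hai : Integrable a := hac.integrable_of_hasCompactSupport has
  have hbi : Integrable b := hbc.integrable_of_hasCompactSupport hbs
  have hci : Integrable c := hcc.integrable_of_hasCompactSupport hcs
  have hφi : ∀ i, HasCompactSupport fun w : W => φ (T w) i := fun i =>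
    HasCompactSupport.intro hK fun w hw => by simp [hφ0 w hw]
  have hφc : ∀ i, Continuous fun w : W => φ (T w) i := fun i => by
    have := hφ.continuous; fun_prop
  have chain : ∀ (γ : ℝ → V) (γ' : V) (t : ℝ) (i : Fin 3), HasDerivAt γ γ' t →
      HasDerivAt (fun t => φ (γ t) i) (fderiv ℝ φ (γ t) γ' i) t := by
    intro γ γ' t i hγ
    have h1 := (hdiff (γ t)).hasFDerivAt.comp_hasDerivAt t hγ
    exact (EuclideanSpace.proj i : V →L[ℝ] ℝ).hasFDerivAt.comp_hasDerivAt t h1
  have hsplit' : (fun w => dv φ (shear u huc w)) = fun w => a w + b w + c w := funext hsplit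
  rw [hsplit']
  have habi : Integrable (fun w => a w + b w) := hai.add hbi
  rw [integral_add habi.integrableOn hci.integrableOn,
    integral_add hai.integrableOn hbi.integrableOn]
  have hswap : ∀ f : W → ℝ, Integrable f → (∀ s, ∫ q, f (q, s) = 0) →
      ∫ w in (univ : Set (ℝ × ℝ)) ×ˢ Iio (0 : ℝ), f w = 0 := by
    intro f hf h0
    have h1 : Integrable f ((volume.restrict univ).prod (volume.restrict (Iio (0 : ℝ)))) := by
      rw [Measure.prod_restrict]; exact hf.integrableOn
    have h2 := integral_prod_symm f h1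
    rw [Measure.prod_restrict] at h2
    refine h2.trans ?_
    simp [h0]
  have hb0 : ∫ w in (univ : Set (ℝ × ℝ)) ×ˢ Iio (0 : ℝ), b w = 0 := by
    refine hswap b hbi fun s => ?_
    refine integral_line_zero (g := fun q => φ (T (q, s)) 1) (v := (1, 0))
      (((hφc 1).comp (by fun_prop)).integrable_of_hasCompactSupport (hcs_slice1 (hφi 1) s))
      ((hbc.comp (by fun_prop)).integrable_of_hasCompactSupport (hcs_slice1 hbs s)) fun q => ?_
    have h1 : HasDerivAt (fun t : ℝ => T (q + t • ((1 : ℝ), (0 : ℝ)), s))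
        (u' q.1 • ee 0 + ee 1) 0 := by
      have e : (fun t : ℝ => T (q + t • ((1 : ℝ), (0 : ℝ)), s)) =
          fun t => (s + u (q.1 + t)) • ee 0 + (q.1 + t) • ee 1 + q.2 • ee 2 := by
        funext t; simp [hT, shear_apply, pt_eq]
      rw [e]
      have h2 : HasDerivAt (fun t : ℝ => q.1 + t) 1 0 := (hasDerivAt_id (0 : ℝ)).const_add _
      have h3 : HasDerivAt (fun t : ℝ => u (q.1 + t)) (u' q.1) 0 := by
        have := (hu (q.1 + 0)).comp (0 : ℝ) h2
        rw [mul_one, add_zero] at this
        exact this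
      have := (((h3.const_add s).smul_const (ee 0)).add (h2.smul_const (ee 1))).add_const
        (q.2 • ee 2)
      simpa using this
    have h2 := chain _ _ 0 1 h1
    simp only [zero_smul, add_zero, map_add, map_smul, PiLp.add_apply, PiLp.smul_apply,
      smul_eq_mul] at h2
    exact h2
  have hc0 : ∫ w in (univ : Set (ℝ × ℝ)) ×ˢ Iio (0 : ℝ), c w = 0 := by
    refine hswap c hci fun s => ?_
    refine integral_line_zero (g := fun q => φ (T (q, s)) 2) (v := (0, 1))
      (((hφc 2).comp (by fun_prop)).integrable_of_hasCompactSupport (hcs_slice1 (hφi 2) s))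
      ((hcc.comp (by fun_prop)).integrable_of_hasCompactSupport (hcs_slice1 hcs s)) fun q => ?_
    have h1 : HasDerivAt (fun t : ℝ => T (q + t • ((0 : ℝ), (1 : ℝ)), s)) (ee 2) 0 := by
      have e : (fun t : ℝ => T (q + t • ((0 : ℝ), (1 : ℝ)), s)) =
          fun t => (s + u q.1) • ee 0 + q.1 • ee 1 + (q.2 + t) • ee 2 := by
        funext t; simp [hT, shear_apply, pt_eq]
      rw [e]
      have h2 : HasDerivAt (fun t : ℝ => q.2 + t) 1 0 := (hasDerivAt_id (0 : ℝ)).const_add _
      have := (h2.smul_const (ee 2)).const_add ((s + u q.1) • ee 0 + q.1 • ee 1)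
      simpa using this
    have h2 := chain _ _ 0 2 h1
    simp only [zero_smul, add_zero] at h2
    exact h2
  rw [hb0, hc0, add_zero, add_zero]
  have h1 := setIntegral_prod (μ := (volume : Measure (ℝ × ℝ))) (ν := (volume : Measure ℝ)) a
    (s := univ) (t := Iio 0) hai.integrableOn
  refine h1.trans ?_
  rw [Measure.restrict_univ]
  refine integral_congr_ae (Eventually.of_forall fun q => ?_)
  simp only
  rw [← integral_Iic_eq_integral_Iio]
  let G : ℝ → ℝ := fun s => φ (T (q, s)) 0 - u' q.1 * φ (T (q, s)) 1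
  have hG : ∀ s, HasDerivAt G (a (q, s)) s := by
    intro s
    have h2 : HasDerivAt (fun t : ℝ => T (q, t)) (ee 0) s := by
      have e : (fun t : ℝ => T (q, t)) =
          fun t => (t + u q.1) • ee 0 + (q.1 • ee 1 + q.2 • ee 2) := by
        funext t; simp [hT, shear_apply, pt_eq, add_assoc]
      rw [e]
      have := (((hasDerivAt_id s).add_const (u q.1)).smul_const (ee 0)).add_const
        (q.1 • ee 1 + q.2 • ee 2)
      simpa using this
    exact (chain _ _ s 0 h2).sub ((chain _ _ s 1 h2).const_mul _)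
  have hGs : HasCompactSupport G := by
    have : HasCompactSupport fun w : W => φ (T w) 0 - u' w.1.1 * φ (T w) 1 :=
      HasCompactSupport.intro hK fun w hw => by simp [hφ0 w hw]
    exact hcs_slice2 this q
  have hlim : Tendsto G atBot (𝓝 0) := by
    have h3 := hGs.is_zero_at_infty
    exact h3.mono_left atBot_le_cocompact
  have := integral_Iic_of_hasDerivAt_of_tendsto' (a := 0) (fun s _ => hG s)
    ((hac.comp (by fun_prop)).integrable_of_hasCompactSupport (hcs_slice2 has q)).integrableOn hlim
  rw [this]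
  simp [G, hT, shear_apply]

lemma integral_dv_zero {φ : V → V} (hφ : ContDiff ℝ 1 φ) (hc : HasCompactSupport φ) :
    ∫ p, dv φ p = 0 := by
  obtain ⟨R, hR⟩ := hc.isCompact.isBounded.subset_closedBall 0
  have hout : ∀ p : V, R + 1 ≤ p 0 → p ∉ tsupport φ := by
    intro p hp h
    have h1 := hR h
    rw [mem_closedBall, dist_zero_right] at h1
    have h2 : |p 0| ≤ R := (PiLp.norm_apply_le p 0).trans h1
    have := le_abs_self (p 0)
    linarith
  have h1 := div_shear hφ hc (u := fun _ => R + 1) (u' := fun _ => 0)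
    (fun y => hasDerivAt_const y _) continuous_const
  rw [setIntegral_eq_integral_of_forall_compl_eq_zero] at h1
  · rw [h1]
    have : ∀ q : ℝ × ℝ, φ (pt (R + 1) q.1 q.2) = 0 := fun q =>
      image_eq_zero_of_notMem_tsupport (hout _ (by simp))
    simp [this]
  · intro p hp
    exact dv_eq_zero (hout p (not_lt.1 hp))

end Pool.Agent.H55Z.Iso
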