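import Mathlib
import Pool.Agent.H55Z.Iso.Div

set_option autoImplicit false

namespace Pool.Agent.H55Z.Iso

open MeasureTheory Set Filter Topology Metric

/-- partial derivative -/
noncomputable def pd (i : Fin 3) (a : V → ℝ) (p : V) : ℝ := fderiv ℝ a p (ee i)

lemma pd_cd1 {a : V → ℝ} (ha : ContDiff ℝ 2 a) (i : Fin 3) : ContDiff ℝ 1 (pd i a) := by
  have h : ContDiff ℝ 1 (fderiv ℝ a) := ha.fderiv_right (by norm_num)
  unfold pd
  exact h.clm_apply contDiff_const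

lemma pd_pd {a : V → ℝ} (ha : ContDiff ℝ 2 a) (i j : Fin 3) (p : V) :
    pd i (pd j a) p = fderiv ℝ (fderiv ℝ a) p (ee i) (ee j) := by
  have h : ContDiff ℝ 1 (fderiv ℝ a) := ha.fderiv_right (by norm_num)
  have h1 := (h.differentiable (by norm_num) p).hasFDerivAt
  have h2 := h1.clm_apply (hasFDerivAt_const (ee j) p)
  unfold pd
  rw [h2.fderiv]
  simp

lemma pd_comm {a : V → ℝ} (ha : ContDiff ℝ 2 a) (i j : Fin 3) (p : V) :
    pd i (pd j a) p = pd j (pd i a) p := by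
  rw [pd_pd ha, pd_pd ha]
  exact (ha.contDiffAt.isSymmSndFDerivAt (by simp)) _ _

lemma pd_mul {a b : V → ℝ} {p : V} (ha : DifferentiableAt ℝ a p) (hb : DifferentiableAt ℝ b p)
    (i : Fin 3) : pd i (fun q => a q * b q) p = pd i a p * b p + a p * pd i b p := by
  unfold pd
  rw [fderiv_fun_mul ha hb]
  simp; ring

lemma pd_sub {a b : V → ℝ} {p : V} (ha : DifferentiableAt ℝ a p) (hb : DifferentiableAt ℝ b p)
    (i : Fin 3) : pd i (fun q => a q - b q) p = pd i a p - pd i b p := by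
  unfold pd
  rw [fderiv_fun_sub ha hb]
  simp

lemma pd_comp {g : ℝ → ℝ} {g' : ℝ} {a : V → ℝ} {p : V} (hg : HasDerivAt g g' (a p))
    (ha : DifferentiableAt ℝ a p) (i : Fin 3) : pd i (fun q => g (a q)) p = g' * pd i a p := by
  unfold pd
  have : HasFDerivAt (fun q => g (a q)) (g' • fderiv ℝ a p) p :=
    hg.comp_hasFDerivAt p ha.hasFDerivAt
  rw [this.fderiv]
  simp

lemma pd_coord (i j : Fin 3) (p : V) : pd i (fun q : V => q j) p = if j = i then 1 else 0 := by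
  unfold pd
  have : HasFDerivAt (fun q : V => q j) (EuclideanSpace.proj j : V →L[ℝ] ℝ) p :=
    (EuclideanSpace.proj j : V →L[ℝ] ℝ).hasFDerivAt
  rw [this.fderiv]
  simp

lemma dv_add {φ ψ : V → V} {p : V} (h1 : DifferentiableAt ℝ φ p) (h2 : DifferentiableAt ℝ ψ p) :
    dv (fun q => φ q + ψ q) p = dv φ p + dv ψ p := by
  unfold dv
  rw [fderiv_fun_add h1 h2]
  simp

lemma dv_three {c0 c1 c2 : V → ℝ} {p : V} (h0 : DifferentiableAt ℝ c0 p)
    (h1 : DifferentiableAt ℝ c1 p) (h2 : DifferentiableAt ℝ c2 p) :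
    dv (fun q => c0 q • ee 0 + c1 q • ee 1 + c2 q • ee 2) p = pd 0 c0 p + pd 1 c1 p + pd 2 c2 p := by
  rw [dv_add ((h0.smul_const _).fun_add (h1.smul_const _)) (h2.smul_const _),
    dv_add (h0.smul_const _) (h1.smul_const _), dv_smul_const h0, dv_smul_const h1,
    dv_smul_const h2]
  rfl

/-- minors of the pair of gradients -/
noncomputable def cr (i j : Fin 3) (a b : V → ℝ) (p : V) : ℝ :=
  pd i a p * pd j b p - pd j a p * pd i b p

lemma cr_cd {a b : V → ℝ} (ha : ContDiff ℝ 2 a) (hb : ContDiff ℝ 2 b) (i j : Fin 3) :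
    ContDiff ℝ 1 (cr i j a b) :=
  ((pd_cd1 ha i).mul (pd_cd1 hb j)).sub ((pd_cd1 ha j).mul (pd_cd1 hb i))

lemma pd_cr {a b : V → ℝ} (ha : ContDiff ℝ 2 a) (hb : ContDiff ℝ 2 b) (i j k : Fin 3) (p : V) :
    pd k (cr i j a b) p = pd k (pd i a) p * pd j b p + pd i a p * pd k (pd j b) p -
      (pd k (pd j a) p * pd i b p + pd j a p * pd k (pd i b) p) := by
  have d : ∀ {c : V → ℝ}, ContDiff ℝ 2 c → ∀ l, DifferentiableAt ℝ (pd l c) p :=
    fun hc l => (pd_cd1 hc l).differentiable (by norm_num) p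
  rw [← pd_mul (d ha i) (d hb j), ← pd_mul (d ha j) (d hb i),
    ← pd_sub ((d ha i).fun_mul (d hb j)) ((d ha j).fun_mul (d hb i))]
  rfl

/-- `f` times the cross product of the gradients -/
noncomputable def XX (f a b : V → ℝ) (p : V) : V :=
  (f p * cr 1 2 a b p) • ee 0 + (f p * cr 2 0 a b p) • ee 1 + (f p * cr 0 1 a b p) • ee 2

lemma XX_cd {f a b : V → ℝ} (hf : ContDiff ℝ 1 f) (ha : ContDiff ℝ 2 a) (hb : ContDiff ℝ 2 b) :
    ContDiff ℝ 1 (XX f a b) :=
  (((hf.mul (cr_cd ha hb 1 2)).smul contDiff_const).add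
    ((hf.mul (cr_cd ha hb 2 0)).smul contDiff_const)).add
    ((hf.mul (cr_cd ha hb 0 1)).smul contDiff_const)

lemma XX_0 (f a b : V → ℝ) (p : V) : XX f a b p 0 = f p * cr 1 2 a b p := by simp [XX]
lemma XX_1 (f a b : V → ℝ) (p : V) : XX f a b p 1 = f p * cr 2 0 a b p := by simp [XX]
lemma XX_2 (f a b : V → ℝ) (p : V) : XX f a b p 2 = f p * cr 0 1 a b p := by simp [XX]

lemma dv_XX {f a b : V → ℝ} (hf : ContDiff ℝ 1 f) (ha : ContDiff ℝ 2 a) (hb : ContDiff ℝ 2 b)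
    (p : V) : dv (XX f a b) p =
      pd 0 f p * cr 1 2 a b p + pd 1 f p * cr 2 0 a b p + pd 2 f p * cr 0 1 a b p := by
  have df := hf.differentiable (by norm_num) p
  have dc : ∀ i j, DifferentiableAt ℝ (cr i j a b) p :=
    fun i j => (cr_cd ha hb i j).differentiable (by norm_num) p
  have := dv_three (df.mul (dc 1 2)) (df.mul (dc 2 0)) (df.mul (dc 0 1))
  refine this.trans ?_
  have e1 := pd_mul df (dc 1 2) 0
  have e2 := pd_mul df (dc 2 0) 1
  have e3 := pd_mul df (dc 0 1) 2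
  change pd 0 (fun q => f q * cr 1 2 a b q) p + pd 1 (fun q => f q * cr 2 0 a b q) p +
    pd 2 (fun q => f q * cr 0 1 a b q) p = _
  rw [e1, e2, e3, pd_cr ha hb, pd_cr ha hb, pd_cr ha hb, pd_comm ha 1 0, pd_comm ha 2 0,
    pd_comm ha 2 1, pd_comm hb 1 0, pd_comm hb 2 0, pd_comm hb 2 1]
  ring

/-- primitive -/
noncomputable def prim (g : ℝ → ℝ) (a t : ℝ) : ℝ := ∫ s in a..t, g s

lemma prim_deriv {g : ℝ → ℝ} (hg : Continuous g) (a t : ℝ) : HasDerivAt (prim g a) (g t) t :=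
  intervalIntegral.integral_hasDerivAt_right (hg.intervalIntegrable _ _)
    (hg.stronglyMeasurableAtFilter _ _) hg.continuousAt

lemma prim_cd {g : ℝ → ℝ} (hg : ContDiff ℝ 1 g) (a : ℝ) : ContDiff ℝ 2 (prim g a) := by
  have h1 : deriv (prim g a) = g := funext fun t => (prim_deriv hg.continuous a t).deriv
  rw [show (2 : WithTop ℕ∞) = 1 + 1 from rfl, contDiff_succ_iff_deriv]
  exact ⟨fun t => (prim_deriv hg.continuous a t).differentiableAt, by simp, by rwa [h1]⟩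

end Pool.Agent.H55Z.Iso
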