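import Mathlib
import Pool.Agent.H55Z.Iso.Div

set_option autoImplicit false

namespace Pool.Agent.H55Z.Iso

open MeasureTheory Set Filter Topology Metric
open scoped ENNReal

noncomputable def dl : ℝ := 1 / 10000
noncomputable def hh : ℝ := 1 - dl
noncomputable def MM : ℝ := dl * hh + hh ^ 2 / 2

/-- the normalised body -/
def Om (α : ℝ) : Set V := {p | |p 2| < 1 - |p 1| ∧ |p 2| < hh - α * |p 0|}

lemma isOpen_Om (α : ℝ) : IsOpen (Om α) := by
  have h1 : IsOpen {p : V | |p 2| < 1 - |p 1|} := isOpen_lt (by fun_prop) (by fun_prop)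
  have h2 : IsOpen {p : V | |p 2| < hh - α * |p 0|} := isOpen_lt (by fun_prop) (by fun_prop)
  exact h1.inter h2

def DD : Set (ℝ × ℝ) := {q | |q.2| < 1 - |q.1|}

lemma isOpen_DD : IsOpen DD := isOpen_lt (by fun_prop) (by fun_prop)

lemma DD_sub : DD ⊆ Icc (-1) 1 ×ˢ Icc (-1) 1 := by
  rintro ⟨y, z⟩ h
  simp only [DD, mem_ofPred_eq] at h
  have h1 := abs_nonneg y
  have h2 := abs_nonneg z
  exact ⟨abs_le.1 (by linarith), abs_le.1 (by linarith)⟩

lemma volume_DD : volume DD ≠ ⊤ :=
  ((measure_mono DD_sub).trans_lt (isCompact_Icc.prod isCompact_Icc).measure_lt_top).ne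

noncomputable def ell (α : ℝ) (q : ℝ × ℝ) : ℝ := (hh - |q.2|) / α

noncomputable def fa (α b a : ℝ) (q : ℝ × ℝ) : ℝ :=
  max (min (ell α q) (a - b * q.1 ^ 2) + ell α q) 0

def FF (α b a : ℝ) : Set V := Om α ∩ {p | p 0 < a - b * (p 1) ^ 2}

lemma isOpen_FF (α b a : ℝ) : IsOpen (FF α b a) :=
  (isOpen_Om α).inter (isOpen_lt (by fun_prop) (by fun_prop))

lemma continuous_fa (α b : ℝ) : Continuous fun w : ℝ × (ℝ × ℝ) => fa α b w.1 w.2 := by
  unfold fa ell; fun_prop

lemma fa_bound {α : ℝ} (hα : 0 < α) (b a : ℝ) (q : ℝ × ℝ) : ‖fa α b a q‖ ≤ 2 / α := by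
  have h1 : ell α q ≤ 1 / α := by
    unfold ell hh dl; gcongr; have := abs_nonneg q.2; linarith
  have h2 := min_le_left (ell α q) (a - b * q.1 ^ 2)
  unfold fa
  rw [Real.norm_of_nonneg (le_max_right _ _)]
  have h3 : 2 / α = 1 / α + 1 / α := by ring
  exact max_le (by linarith) (by positivity)

lemma integrableOn_fa {α : ℝ} (hα : 0 < α) (b a : ℝ) : IntegrableOn (fa α b a) DD := by
  refine Measure.integrableOn_of_bounded (M := 2 / α) volume_DD ?_
    (Eventually.of_forall fun q => fa_bound hα b a q)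
  exact ((continuous_fa α b).comp (Continuous.prodMk_right a)).aestronglyMeasurable

lemma volume_FF {α : ℝ} (hα : 0 < α) (b a : ℝ) :
    volume (FF α b a) = ENNReal.ofReal (∫ q in DD, fa α b a q) := by
  let S : Set W := {w | |w.1.2| < 1 - |w.1.1| ∧ |w.1.2| < hh - α * |w.2| ∧ w.2 < a - b * w.1.1 ^ 2}
  have hS : MeasurableSet S := by
    apply IsOpen.measurableSet
    have k1 : IsOpen {w : W | |w.1.2| < 1 - |w.1.1|} := isOpen_lt (by fun_prop) (by fun_prop)
    have k2 : IsOpen {w : W | |w.1.2| < hh - α * |w.2|} := isOpen_lt (by fun_prop) (by fun_prop)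
    have k3 : IsOpen {w : W | w.2 < a - b * w.1.1 ^ 2} := isOpen_lt (by fun_prop) (by fun_prop)
    exact k1.inter (k2.inter k3)
  have h1 : FF α b a = (fun p : V => (((p 1, p 2), p 0) : W)) ⁻¹' S := by
    ext p; simp [FF, Om, S, and_assoc]
  rw [h1, mp_coord.measure_preimage hS.nullMeasurableSet,
    ofReal_integral_eq_lintegral_ofReal (integrableOn_fa hα b a)
      (Eventually.of_forall fun q => le_max_right _ _), ← lintegral_indicator isOpen_DD.measurableSet]
  refine (Measure.prod_apply hS).trans (lintegral_congr fun q => ?_)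
  by_cases hq : q ∈ DD
  · rw [indicator_of_mem hq]
    have : Prod.mk q ⁻¹' S = Ioo (-ell α q) (min (ell α q) (a - b * q.1 ^ 2)) := by
      ext x
      simp only [S, mem_preimage, mem_ofPred_eq, mem_Ioo, lt_min_iff]
      have e : |q.2| < hh - α * |x| ↔ |x| < ell α q := by
        unfold ell; rw [lt_div_iff₀ hα]; constructor <;> intro h <;> linarith
      rw [e, abs_lt (a := x)]
      have hq' : |q.2| < 1 - |q.1| := hq
      tauto
    rw [this, Real.volume_Ioo, fa, ENNReal.ofReal_max]
    simp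
  · rw [indicator_of_notMem hq]
    have : Prod.mk q ⁻¹' S = ∅ := by
      ext x
      simp only [S, mem_preimage, mem_ofPred_eq, mem_empty_iff_false, iff_false]
      exact fun h => hq h.1
    rw [this, measure_empty]

lemma FF_big {α : ℝ} (hα : 0 < α) {b : ℝ} (hb : 0 ≤ b) : FF α b (1 / α + b) = Om α := by
  refine inter_eq_left.2 fun p hp => ?_
  obtain ⟨h1, h2⟩ := hp
  have h3 := abs_nonneg (p 2)
  have h4 : (p 1) ^ 2 ≤ 1 := by
    rw [← sq_abs]; have := abs_nonneg (p 1); nlinarith
  have h5 : |p 0| < 1 / α := by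
    rw [lt_div_iff₀ hα]; unfold hh dl at h2; linarith
  have h6 := le_abs_self (p 0)
  simp only [mem_ofPred_eq]
  nlinarith

lemma integral_DD_u (b : ℝ) : ∫ q in DD, (b / 6 - b * q.1 ^ 2) = 0 := by
  have hint : IntegrableOn (fun q : ℝ × ℝ => b / 6 - b * q.1 ^ 2) DD :=
    ((by fun_prop : Continuous fun q : ℝ × ℝ => b / 6 - b * q.1 ^ 2).continuousOn.integrableOn_compact
      (isCompact_Icc.prod isCompact_Icc)).mono_set DD_sub
  rw [← integral_indicator isOpen_DD.measurableSet]
  have h1 := integral_prod (μ := (volume : Measure ℝ)) (ν := (volume : Measure ℝ))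
    (DD.indicator fun q : ℝ × ℝ => b / 6 - b * q.1 ^ 2)
    ((integrable_indicator_iff isOpen_DD.measurableSet).2 hint)
  refine h1.trans ?_
  have h2 : ∀ y : ℝ, ∫ z, DD.indicator (fun q : ℝ × ℝ => b / 6 - b * q.1 ^ 2) (y, z) =
      (Ioc (-1 : ℝ) 1).indicator (fun y => (b / 6 - b * y ^ 2) * (2 * (1 - |y|))) y := by
    intro y
    have e : (fun z => DD.indicator (fun q : ℝ × ℝ => b / 6 - b * q.1 ^ 2) (y, z)) =
        (Ioo (-(1 - |y|)) (1 - |y|)).indicator fun _ => b / 6 - b * y ^ 2 := by
      funext z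
      simp only [indicator, DD, mem_ofPred_eq, mem_Ioo, ← abs_lt]
    rw [e, integral_indicator measurableSet_Ioo, setIntegral_const, Real.volume_real_Ioo,
      smul_eq_mul]
    by_cases hy : y ∈ Ioc (-1 : ℝ) 1
    · rw [indicator_of_mem hy]
      have : |y| ≤ 1 := abs_le.2 ⟨hy.1.le, hy.2⟩
      rw [max_eq_left (by linarith)]; ring
    · rw [indicator_of_notMem hy]
      have : 1 ≤ |y| := by
        by_contra h
        rw [not_le, abs_lt] at h
        exact hy ⟨h.1, h.2.le⟩
      rw [max_eq_right (by linarith), zero_mul]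
  simp_rw [h2]
  rw [integral_indicator measurableSet_Ioc, ← intervalIntegral.integral_of_le (by norm_num)]
  have hc : Continuous fun y : ℝ => (b / 6 - b * y ^ 2) * (2 * (1 - |y|)) := by fun_prop
  rw [← intervalIntegral.integral_add_adjacent_intervals (b := 0) (hc.intervalIntegrable _ _)
    (hc.intervalIntegrable _ _)]
  have e1 : ∫ y in (-1 : ℝ)..0, (b / 6 - b * y ^ 2) * (2 * (1 - |y|)) =
      ∫ y in (-1 : ℝ)..0, (b / 3 + b / 3 * y - 2 * b * y ^ 2 - 2 * b * y ^ 3) := by
    refine intervalIntegral.integral_congr fun y hy => ?_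
    rw [uIcc_of_le (by norm_num)] at hy
    simp only [abs_of_nonpos hy.2]; ring
  have e2 : ∫ y in (0 : ℝ)..1, (b / 6 - b * y ^ 2) * (2 * (1 - |y|)) =
      ∫ y in (0 : ℝ)..1, (b / 3 - b / 3 * y - 2 * b * y ^ 2 + 2 * b * y ^ 3) := by
    refine intervalIntegral.integral_congr fun y hy => ?_
    rw [uIcc_of_le (by norm_num)] at hy
    simp only [abs_of_nonneg hy.1]; ring
  have p1 : ∀ y : ℝ, HasDerivAt (fun y : ℝ => b / 3 * y + b / 6 * y ^ 2 - 2 * b / 3 * y ^ 3
      - b / 2 * y ^ 4) (b / 3 + b / 3 * y - 2 * b * y ^ 2 - 2 * b * y ^ 3) y := by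
    intro y
    have := ((((hasDerivAt_id y).const_mul (b / 3)).add ((hasDerivAt_pow 2 y).const_mul (b / 6))).sub
      ((hasDerivAt_pow 3 y).const_mul (2 * b / 3))).sub ((hasDerivAt_pow 4 y).const_mul (b / 2))
    refine HasDerivAt.congr_deriv this ?_
    norm_num; ring
  have p2 : ∀ y : ℝ, HasDerivAt (fun y : ℝ => b / 3 * y - b / 6 * y ^ 2 - 2 * b / 3 * y ^ 3
      + b / 2 * y ^ 4) (b / 3 - b / 3 * y - 2 * b * y ^ 2 + 2 * b * y ^ 3) y := by
    intro y
    have := ((((hasDerivAt_id y).const_mul (b / 3)).sub ((hasDerivAt_pow 2 y).const_mul (b / 6))).sub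
      ((hasDerivAt_pow 3 y).const_mul (2 * b / 3))).add ((hasDerivAt_pow 4 y).const_mul (b / 2))
    refine HasDerivAt.congr_deriv this ?_
    norm_num; ring
  rw [e1, e2, intervalIntegral.integral_eq_sub_of_hasDerivAt (fun y _ => p1 y)
    ((by fun_prop : Continuous _).intervalIntegrable _ _),
    intervalIntegral.integral_eq_sub_of_hasDerivAt (fun y _ => p2 y)
    ((by fun_prop : Continuous _).intervalIntegrable _ _)]
  ring

lemma exists_half {α : ℝ} (hα : 0 < α) (hα1 : α ≤ 1 / 100) {b : ℝ} (hb : 0 ≤ b) (hb1 : b ≤ 1) :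
    ∃ a, b / 6 ≤ a ∧ volume (FF α b a) = volume (Om α) / 2 := by
  let v : ℝ → ℝ := fun a => ∫ q in DD, fa α b a q
  have hv : Continuous v := by
    refine continuous_of_dominated (bound := fun _ => 2 / α) (fun a => ?_)
      (fun a => Eventually.of_forall fun q => fa_bound hα b a q) (integrableOn_const volume_DD)
      (Eventually.of_forall fun q => ?_)
    · exact ((continuous_fa α b).comp (Continuous.prodMk_right a)).aestronglyMeasurable
    · exact (continuous_fa α b).comp (Continuous.prodMk_left q)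
  have hv0 : ∀ a, 0 ≤ v a := fun a => integral_nonneg fun q => le_max_right _ _
  have hle : v (b / 6) ≤ v (1 / α + b) / 2 := by
    have hint : IntegrableOn (fun q : ℝ × ℝ => b / 6 - b * q.1 ^ 2) DD :=
      ((by fun_prop : Continuous fun q : ℝ × ℝ => b / 6 - b * q.1 ^ 2).continuousOn.integrableOn_compact
        (isCompact_Icc.prod isCompact_Icc)).mono_set DD_sub
    have h1 : v (b / 6) ≤ ∫ q in DD, (fa α b (1 / α + b) q / 2 + (b / 6 - b * q.1 ^ 2)) := by
      refine setIntegral_mono_on (integrableOn_fa hα b _)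
        (((integrableOn_fa hα b _).div_const 2).add hint) isOpen_DD.measurableSet fun q hq => ?_
      have hq' : |q.2| < 1 - |q.1| := hq
      have hz := abs_nonneg q.2
      have hy := abs_nonneg q.1
      have hy2 : q.1 ^ 2 ≤ 1 := by rw [← sq_abs]; nlinarith
      have hl : ell α q ≤ 1 / α := by
        unfold ell hh dl; gcongr; linarith
      have e : fa α b (1 / α + b) q = max (2 * ell α q) 0 := by
        unfold fa; rw [min_eq_left (by nlinarith), two_mul]
      rw [e]
      have hm1 := le_max_left (2 * ell α q) 0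
      have hm2 := le_max_right (2 * ell α q) 0
      have hm3 := min_le_right (ell α q) (b / 6 - b * q.1 ^ 2)
      refine max_le (by linarith) ?_
      by_cases hu : 0 ≤ b / 6 - b * q.1 ^ 2
      · linarith
      · have h3 : 1 / 6 < q.1 ^ 2 := by
          by_contra h4
          apply hu
          nlinarith
        have h4 : 2 / 5 < |q.1| := by
          by_contra h5
          rw [← sq_abs] at h3
          nlinarith
        have h5 : 1 ≤ ell α q := by
          unfold ell hh dl; rw [le_div_iff₀ hα]; linarith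
        nlinarith
    rw [integral_add ((integrableOn_fa hα b _).div_const 2) hint, integral_DD_u, add_zero,
      integral_div] at h1
    exact h1
  have hab : b / 6 ≤ 1 / α + b := by have : 0 < 1 / α := by positivity
                                     linarith
  obtain ⟨a, ha, hva⟩ := intermediate_value_Icc hab hv.continuousOn
    (show v (1 / α + b) / 2 ∈ Icc (v (b / 6)) (v (1 / α + b)) from
      ⟨hle, by have := hv0 (1 / α + b); linarith⟩)
  refine ⟨a, ha.1, ?_⟩
  rw [← FF_big hα hb, volume_FF hα, volume_FF hα]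
  change ENNReal.ofReal (v a) = ENNReal.ofReal (v (1 / α + b)) / 2
  rw [hva, ENNReal.ofReal_div_of_pos (by norm_num)]
  simp

lemma volume_tri1 : volume (regionBetween (fun y => -(1 - y)) (fun y => 1 - y) (Icc dl 1)) =
    ENNReal.ofReal (hh ^ 2) := by
  have := volume_regionBetween_eq_integral (μ := (volume : Measure ℝ)) (f := fun y : ℝ => -(1 - y))
    (g := fun y : ℝ => 1 - y) (s := Icc dl 1)
    ((by fun_prop : Continuous _).continuousOn.integrableOn_compact isCompact_Icc)
    ((by fun_prop : Continuous _).continuousOn.integrableOn_compact isCompact_Icc)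
    measurableSet_Icc (fun y hy => by have := hy.2; linarith)
  refine this.trans ?_
  congr 1
  rw [integral_Icc_eq_integral_Ioc, ← intervalIntegral.integral_of_le (by unfold dl; norm_num)]
  have p1 : ∀ y : ℝ, HasDerivAt (fun y : ℝ => 2 * y - y ^ 2)
      (((fun y : ℝ => 1 - y) - fun y : ℝ => -(1 - y)) y) y := by
    intro y
    have := ((hasDerivAt_id y).const_mul 2).sub (hasDerivAt_pow 2 y)
    refine HasDerivAt.congr_deriv this ?_
    simp only [Pi.sub_apply]; norm_num; ring
  rw [intervalIntegral.integral_eq_sub_of_hasDerivAt (fun y _ => p1 y)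
    ((by fun_prop : Continuous _).intervalIntegrable _ _)]
  unfold hh; ring

lemma volume_tri2 : volume (regionBetween (fun y => -(1 + y)) (fun y => 1 + y) (Icc (-1) (-dl))) =
    ENNReal.ofReal (hh ^ 2) := by
  have := volume_regionBetween_eq_integral (μ := (volume : Measure ℝ)) (f := fun y : ℝ => -(1 + y))
    (g := fun y : ℝ => 1 + y) (s := Icc (-1) (-dl))
    ((by fun_prop : Continuous _).continuousOn.integrableOn_compact isCompact_Icc)
    ((by fun_prop : Continuous _).continuousOn.integrableOn_compact isCompact_Icc)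
    measurableSet_Icc (fun y hy => by have := hy.1; linarith)
  refine this.trans ?_
  congr 1
  rw [integral_Icc_eq_integral_Ioc, ← intervalIntegral.integral_of_le (by unfold dl; norm_num)]
  have p1 : ∀ y : ℝ, HasDerivAt (fun y : ℝ => 2 * y + y ^ 2)
      (((fun y : ℝ => 1 + y) - fun y : ℝ => -(1 + y)) y) y := by
    intro y
    have := ((hasDerivAt_id y).const_mul 2).add (hasDerivAt_pow 2 y)
    refine HasDerivAt.congr_deriv this ?_
    simp only [Pi.sub_apply]; norm_num; ring
  rw [intervalIntegral.integral_eq_sub_of_hasDerivAt (fun y _ => p1 y)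
    ((by fun_prop : Continuous _).intervalIntegrable _ _)]
  unfold hh; ring

theorem upper {α : ℝ} (hα : 0 < α) (hα1 : α ≤ 1 / 100) :
    ∃ F, MeasurableSet F ∧ F ⊆ Om α ∧ volume F = volume (Om α) / 2 ∧
      ∀ φ : V → V, ContDiff ℝ 1 φ → HasCompactSupport φ → tsupport φ ⊆ Om α →
        (∀ p, φ p 0 ^ 2 + φ p 1 ^ 2 ≤ 1) → ∫ p in F, dv φ p ≤ 4 * MM - α ^ 2 * dl ^ 2 / 49 := by
  set b := α * dl / 14 with hb
  have hdl : dl = 1 / 10000 := rfl
  have hb0 : 0 ≤ b := by rw [hb, hdl]; positivity
  have hb1 : b ≤ 1 / 100 := by rw [hb, hdl]; linarith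
  obtain ⟨a, ha, hv⟩ := exists_half hα hα1 hb0 (by linarith)
  refine ⟨FF α b a, (isOpen_FF α b a).measurableSet, inter_subset_left, hv,
    fun φ h1 h2 h3 h4 => ?_⟩
  have e1 : ∫ p in FF α b a, dv φ p = ∫ p in {p : V | p 0 < a - b * (p 1) ^ 2}, dv φ p := by
    symm
    refine setIntegral_eq_of_subset_of_forall_sdiff_eq_zero
      (isOpen_lt (by fun_prop) (by fun_prop)).measurableSet inter_subset_right fun p hp => ?_
    exact dv_eq_zero fun h => hp.2 ⟨h3 h, hp.1⟩
  have hu : ∀ y : ℝ, HasDerivAt (fun y : ℝ => a - b * y ^ 2) (-(2 * b * y)) y := by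
    intro y
    have := ((hasDerivAt_pow 2 y).const_mul b).const_sub a
    refine HasDerivAt.congr_deriv this ?_
    norm_num; ring
  rw [e1, div_shear h1 h2 hu (by fun_prop)]
  set c := hh - α * b / 7 with hc
  have hc0 : 0 ≤ c := by rw [hc]; unfold hh; nlinarith
  let R : Set (ℝ × ℝ) := Icc (-dl) dl ×ˢ Ioo (-c) c ∪
    (regionBetween (fun y => -(1 - y)) (fun y => 1 - y) (Icc dl 1) ∪
      regionBetween (fun y => -(1 + y)) (fun y => 1 + y) (Icc (-1) (-dl)))
  have hRm : MeasurableSet R :=
    (measurableSet_Icc.prod measurableSet_Ioo).union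
      ((measurableSet_regionBetween (by fun_prop) (by fun_prop) measurableSet_Icc).union
        (measurableSet_regionBetween (by fun_prop) (by fun_prop) measurableSet_Icc))
  have hRv : volume R ≤ ENNReal.ofReal (4 * dl * c + 2 * hh ^ 2) := by
    refine (measure_union_le _ _).trans ((add_le_add le_rfl (measure_union_le _ _)).trans ?_)
    rw [volume_tri1, volume_tri2, Measure.volume_eq_prod, Measure.prod_prod, Real.volume_Icc,
      Real.volume_Ioo, ← ENNReal.ofReal_mul (by rw [hdl]; norm_num),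
      ← ENNReal.ofReal_add (by positivity) (by positivity),
      ← ENNReal.ofReal_add (by rw [hdl]; nlinarith) (by positivity)]
    apply ENNReal.ofReal_le_ofReal
    linarith
  have hRfin : volume R ≠ ⊤ := ne_top_of_le_ne_top ENNReal.ofReal_ne_top hRv
  have hRv' : volume.real R ≤ 4 * dl * c + 2 * hh ^ 2 :=
    ENNReal.toReal_le_of_le_ofReal (by rw [hdl]; positivity) hRv
  have hbound : ∀ q : ℝ × ℝ, ‖φ (pt (a - b * q.1 ^ 2) q.1 q.2) 0 -
      -(2 * b * q.1) * φ (pt (a - b * q.1 ^ 2) q.1 q.2) 1‖ ≤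
      R.indicator (fun _ => 1 + 2 * b ^ 2) q := by
    intro q
    by_cases hq : pt (a - b * q.1 ^ 2) q.1 q.2 ∈ Om α
    · obtain ⟨g1, g2⟩ := hq
      simp only [pt_0, pt_1, pt_2] at g1 g2
      have hz := abs_nonneg q.2
      have hy := abs_nonneg q.1
      have hqR : q ∈ R := by
        by_cases hy1 : |q.1| ≤ dl
        · left
          refine ⟨abs_le.1 hy1, abs_lt.1 ?_⟩
          have h5 : q.1 ^ 2 ≤ dl ^ 2 := by rw [← sq_abs]; gcongr
          have h6 : b / 7 ≤ a - b * q.1 ^ 2 := by rw [hdl] at h5; nlinarith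
          have h7 := le_abs_self (a - b * q.1 ^ 2)
          rw [hc]; nlinarith
        · right
          rw [not_le] at hy1
          rcases le_total 0 q.1 with h5 | h5
          · left
            rw [abs_of_nonneg h5] at hy1 g1
            exact ⟨⟨hy1.le, by linarith⟩, abs_lt.1 g1⟩
          · right
            rw [abs_of_nonpos h5] at hy1 g1
            refine ⟨⟨by linarith, by linarith⟩, abs_lt.1 (by linarith)⟩
      rw [indicator_of_mem hqR, Real.norm_eq_abs]
      have h5 := h4 (pt (a - b * q.1 ^ 2) q.1 q.2)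
      set s := φ (pt (a - b * q.1 ^ 2) q.1 q.2) 0
      set t := φ (pt (a - b * q.1 ^ 2) q.1 q.2) 1
      have hy2 : q.1 ^ 2 ≤ 1 := by rw [← sq_abs]; nlinarith
      set m := 2 * b * q.1 with hm
      have hm2 : m ^ 2 ≤ 4 * b ^ 2 := by rw [hm]; nlinarith [sq_nonneg b]
      apply abs_le_of_sq_le_sq' _ (by positivity) |> abs_le.2
      have h6 : (s - -m * t) ^ 2 ≤ (1 + m ^ 2) * (s ^ 2 + t ^ 2) := by
        nlinarith [sq_nonneg (t - m * s)]
      nlinarith [sq_nonneg m, sq_nonneg (b ^ 2)]
    · have : φ (pt (a - b * q.1 ^ 2) q.1 q.2) = 0 :=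
        image_eq_zero_of_notMem_tsupport fun h => hq (h3 h)
      rw [this]
      simp only [PiLp.zero_apply, mul_zero, sub_zero, norm_zero]
      exact indicator_nonneg (fun _ _ => by positivity) _
  have hfin := norm_integral_le_of_norm_le
    ((integrable_indicator_iff hRm).2 (integrableOn_const hRfin)) (Eventually.of_forall hbound)
  rw [integral_indicator hRm, setIntegral_const, smul_eq_mul] at hfin
  refine (le_abs_self _).trans (hfin.trans ?_)
  have hM : 4 * dl * c + 2 * hh ^ 2 = 4 * MM - 4 * α * b * dl / 7 := by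
    rw [hc]; unfold MM; ring
  have hM2 : MM ≤ 1 / 2 := by unfold MM hh dl; norm_num
  have hpos : 0 ≤ α * b * dl := by rw [hdl]; positivity
  calc volume.real R * (1 + 2 * b ^ 2) ≤ (4 * MM - 4 * α * b * dl / 7) * (1 + 2 * b ^ 2) := by
        rw [← hM]; gcongr
    _ ≤ 4 * MM - 4 * α * b * dl / 7 + 4 * b ^ 2 := by nlinarith [sq_nonneg b]
    _ = 4 * MM - α ^ 2 * dl ^ 2 / 49 := by rw [hb]; ring

end Pool.Agent.H55Z.Iso
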