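import Mathlib
import Pool.Agent.H55Z.Iso.Cross
import Pool.Agent.H55Z.Iso.Upper

set_option autoImplicit false

namespace Pool.Agent.H55Z.Iso

open MeasureTheory Set Filter Topology Metric

/-- plateau function -/
noncomputable def plat (a b η t : ℝ) : ℝ :=
  Real.smoothTransition ((t - a) / η) * Real.smoothTransition ((b - t) / η)

lemma plat_cd (a b η : ℝ) : ContDiff ℝ 2 (plat a b η) := by
  have h : ContDiff ℝ 2 Real.smoothTransition := Real.smoothTransition.contDiff
  exact (h.comp (by fun_prop)).mul (h.comp (by fun_prop))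

lemma plat_nonneg (a b η t : ℝ) : 0 ≤ plat a b η t :=
  mul_nonneg (Real.smoothTransition.nonneg _) (Real.smoothTransition.nonneg _)

lemma plat_le (a b η t : ℝ) : plat a b η t ≤ 1 :=
  mul_le_one₀ (Real.smoothTransition.le_one _) (Real.smoothTransition.nonneg _)
    (Real.smoothTransition.le_one _)

lemma plat_ne {a b η t : ℝ} (hη : 0 < η) (h : plat a b η t ≠ 0) : a < t ∧ t < b := by
  constructor
  · by_contra h1
    apply h
    unfold plat
    rw [Real.smoothTransition.zero_of_nonpos
      (div_nonpos_of_nonpos_of_nonneg (by linarith) hη.le), zero_mul]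
  · by_contra h1
    apply h
    unfold plat
    rw [Real.smoothTransition.zero_of_nonpos (x := (b - t) / η)
      (div_nonpos_of_nonpos_of_nonneg (by linarith) hη.le), mul_zero]

lemma plat_one {a b η t : ℝ} (hη : 0 < η) (h1 : a + η ≤ t) (h2 : t ≤ b - η) : plat a b η t = 1 := by
  unfold plat
  rw [Real.smoothTransition.one_of_one_le (by rw [le_div_iff₀ hη]; linarith),
    Real.smoothTransition.one_of_one_le (by rw [le_div_iff₀ hη]; linarith), mul_one]

noncomputable def chi (η : ℝ) : ℝ → ℝ := plat (-1) 1 η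
noncomputable def TT (η : ℝ) : ℝ → ℝ := prim (chi η) (-1)
noncomputable def II (η : ℝ) : ℝ := TT η 1

lemma chi_cont (η : ℝ) : Continuous (chi η) := (plat_cd _ _ _).continuous

lemma TT_cd (η : ℝ) : ContDiff ℝ 2 (TT η) := prim_cd ((plat_cd _ _ _).of_le (by norm_num)) _

lemma TT_deriv (η t : ℝ) : HasDerivAt (TT η) (chi η t) t := prim_deriv (chi_cont η) _ _

lemma chi_ne {η t : ℝ} (hη : 0 < η) (h : chi η t ≠ 0) : |t| < 1 := abs_lt.2 (plat_ne hη h)

lemma TT_mono (η : ℝ) : Monotone (TT η) :=
  monotone_of_deriv_nonneg (fun t => (TT_deriv η t).differentiableAt)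
    fun t => by rw [(TT_deriv η t).deriv]; exact plat_nonneg _ _ _ _

lemma TT_low {η t : ℝ} (hη : 0 < η) (h : t ≤ -1) : TT η t = 0 := by
  unfold TT prim
  rw [intervalIntegral.integral_congr (g := fun _ => 0), intervalIntegral.integral_zero]
  intro s hs
  rw [uIcc_of_ge h] at hs
  by_contra h1
  have := abs_lt.1 (chi_ne hη h1)
  linarith [hs.2]

lemma TT_high {η t : ℝ} (hη : 0 < η) (h : 1 ≤ t) : TT η t = II η := by
  unfold II TT prim
  rw [← intervalIntegral.integral_add_adjacent_intervals (b := 1)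
    ((chi_cont η).intervalIntegrable _ _) ((chi_cont η).intervalIntegrable _ _),
    intervalIntegral.integral_congr (a := 1) (g := fun _ => 0), intervalIntegral.integral_zero,
    add_zero]
  intro s hs
  rw [uIcc_of_le h] at hs
  by_contra h1
  have := abs_lt.1 (chi_ne hη h1)
  linarith [hs.1]

lemma TT_nonneg {η : ℝ} (hη : 0 < η) (t : ℝ) : 0 ≤ TT η t := by
  have := TT_mono η (min_le_left t (-1))
  rwa [TT_low hη (min_le_right _ _)] at this

lemma TT_le {η : ℝ} (hη : 0 < η) (t : ℝ) : TT η t ≤ II η := by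
  have := TT_mono η (le_max_left t 1)
  rwa [TT_high hη (le_max_right _ _)] at this

lemma II_le (η : ℝ) : II η ≤ 2 := by
  unfold II TT prim
  have := intervalIntegral.integral_mono_on (μ := volume) (a := -1) (b := 1) (by norm_num)
    ((chi_cont η).intervalIntegrable _ _) (intervalIntegrable_const (c := (1 : ℝ)))
    fun x _ => plat_le _ _ _ _
  simp only [intervalIntegral.integral_const, smul_eq_mul] at this
  linarith

lemma II_ge {η : ℝ} (hη : 0 < η) (hη1 : η ≤ 1) : 2 - 2 * η ≤ II η := by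
  unfold II TT prim
  have h1 := intervalIntegral.integral_mono_interval (μ := volume) (f := chi η) (c := -1) (d := 1)
    (a := -1 + η) (b := 1 - η) (by linarith) (by linarith) (by linarith)
    (Eventually.of_forall fun x => plat_nonneg _ _ _ _) ((chi_cont η).intervalIntegrable _ _)
  rw [intervalIntegral.integral_congr (g := fun _ => 1)] at h1
  · simp only [intervalIntegral.integral_const, smul_eq_mul] at h1
    linarith
  · intro s hs
    rw [uIcc_of_le (by linarith)] at hs
    exact plat_one hη hs.1 hs.2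

lemma integral_chi {η : ℝ} (hη : 0 < η) : ∫ t, chi η t = II η := by
  unfold II TT prim
  symm
  apply intervalIntegral.integral_eq_integral_of_support_subset
  intro t ht
  have := abs_lt.1 (chi_ne hη ht)
  exact ⟨this.1, this.2.le⟩

/-- smoothed minimum, lowered by `2η` -/
noncomputable def hm (β η u : ℝ) : ℝ :=
  ((1 - u) + (hh - β * u ^ 2) - √(((1 - u) - (hh - β * u ^ 2)) ^ 2 + η ^ 2)) / 2 - 2 * η

noncomputable def gam (β η u : ℝ) : ℝ := plat (2 * η) (1 - 3 * η) η u * hm β η u

lemma hm_cd (β : ℝ) {η : ℝ} (hη : 0 < η) : ContDiff ℝ 2 (hm β η) := by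
  unfold hm
  have : ContDiff ℝ 2 fun u : ℝ => √(((1 - u) - (hh - β * u ^ 2)) ^ 2 + η ^ 2) :=
    ContDiff.sqrt (by fun_prop) fun u => by positivity
  fun_prop

lemma gam_cd (β : ℝ) {η : ℝ} (hη : 0 < η) : ContDiff ℝ 2 (gam β η) :=
  (plat_cd _ _ _).mul (hm_cd β hη)

lemma hm_bounds (β : ℝ) {η : ℝ} (hη : 0 < η) (u : ℝ) :
    hm β η u ≤ 1 - u - 2 * η ∧ hm β η u ≤ hh - β * u ^ 2 - 2 * η ∧
      min (1 - u) (hh - β * u ^ 2) - 5 * η / 2 ≤ hm β η u := by
  unfold hm
  set a := 1 - u
  set b := hh - β * u ^ 2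
  have h1 : |a - b| ≤ √((a - b) ^ 2 + η ^ 2) := Real.abs_le_sqrt (by nlinarith)
  have h2 : √((a - b) ^ 2 + η ^ 2) ≤ |a - b| + η := by
    rw [Real.sqrt_le_left (by positivity)]
    nlinarith [sq_abs (a - b), abs_nonneg (a - b)]
  have h3 := le_abs_self (a - b)
  have h4 := neg_abs_le (a - b)
  refine ⟨by linarith, by linarith, ?_⟩
  rcases le_total a b with h | h
  · rw [min_eq_left h]; rw [abs_of_nonpos (by linarith)] at h2; linarith
  · rw [min_eq_right h]; rw [abs_of_nonneg (by linarith)] at h2; linarith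

lemma gam_ne {β η u : ℝ} (hη : 0 < η) (h : gam β η u ≠ 0) : 2 * η < u ∧ u < 1 - 3 * η :=
  plat_ne hη (left_ne_zero_of_mul h)

lemma gam_bounds {β η u : ℝ} (_hβ : 0 ≤ β) (hβ1 : β ≤ 1 / 100) (hη : 0 < η) (hη1 : η ≤ 1 / 100)
    (h : gam β η u ≠ 0) :
    0 ≤ gam β η u ∧ gam β η u ≤ 1 - u - 2 * η ∧ gam β η u ≤ hh - β * u ^ 2 - 2 * η := by
  obtain ⟨h1, h2⟩ := gam_ne hη h
  obtain ⟨k1, k2, k3⟩ := hm_bounds β hη u
  have hu2 : u ^ 2 ≤ 1 := by nlinarith
  have h0 : 0 ≤ hm β η u := by
    refine le_trans ?_ k3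
    rw [sub_nonneg]
    refine le_min (by linarith) ?_
    unfold hh dl
    nlinarith
  have p0 := plat_nonneg (2 * η) (1 - 3 * η) η u
  have p1 := plat_le (2 * η) (1 - 3 * η) η u
  have : gam β η u ≤ hm β η u := mul_le_of_le_one_left h0 p1
  exact ⟨mul_nonneg p0 h0, by linarith, by linarith⟩

lemma gam_nonneg {β η : ℝ} (hβ : 0 ≤ β) (hβ1 : β ≤ 1 / 100) (hη : 0 < η) (hη1 : η ≤ 1 / 100)
    (u : ℝ) : 0 ≤ gam β η u := by
  by_cases h : gam β η u = 0
  · exact h.ge
  · exact (gam_bounds hβ hβ1 hη hη1 h).1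

lemma integral_gam {β η : ℝ} (hβ : 0 ≤ β) (hβ1 : β ≤ 1 / 100) (hη : 0 < η) (hη1 : η ≤ dl / 3)
    {b : ℝ} (hb : 1 ≤ b) : MM - 8 * β * dl ^ 3 - 10 * η ≤ ∫ u in η..b, gam β η u := by
  have hdl : dl = 1 / 10000 := rfl
  have hη2 : η ≤ 1 / 100 := by rw [hdl] at hη1; linarith
  have hc := (gam_cd β hη).continuous
  have h1 := intervalIntegral.integral_mono_interval (μ := volume) (f := gam β η) (c := η) (d := b)
    (a := 3 * η) (b := 1 - 4 * η) (by linarith) (by linarith) (by linarith)
    (Eventually.of_forall fun x => gam_nonneg hβ hβ1 hη hη2 x) (hc.intervalIntegrable _ _)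
  refine le_trans ?_ h1
  have hlow : ∀ u, 3 * η ≤ u → u ≤ 1 - 4 * η →
      min (1 - u) (hh - β * u ^ 2) - 5 * η / 2 ≤ gam β η u := by
    intro u h2 h3
    unfold gam
    rw [plat_one hη (by linarith) (by linarith), one_mul]
    exact (hm_bounds β hη u).2.2
  rw [← intervalIntegral.integral_add_adjacent_intervals (b := dl) (hc.intervalIntegrable _ _)
    (hc.intervalIntegrable _ _), ← intervalIntegral.integral_add_adjacent_intervals (a := dl)
    (b := 2 * dl) (hc.intervalIntegrable _ _) (hc.intervalIntegrable _ _)]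
  have lin : ∀ a b k : ℝ, ∫ u in a..b, (k - u) = k * (b - a) - (b ^ 2 - a ^ 2) / 2 := by
    intro a b k
    rw [intervalIntegral.integral_sub intervalIntegrable_const
      (continuous_id'.intervalIntegrable _ _), integral_id]
    simp; ring
  have i1 := intervalIntegral.integral_mono_on (μ := volume) (a := 3 * η) (b := dl) (by linarith)
    (intervalIntegrable_const (c := hh - 4 * β * dl ^ 2 - 5 * η / 2)) (hc.intervalIntegrable _ _)
    fun u hu => by
      refine le_trans ?_ (hlow u hu.1 (by rw [hdl] at hu; linarith [hu.2]))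
      have h2 : u ^ 2 ≤ dl ^ 2 := by have := hu.1; have := hu.2; gcongr; linarith
      have h3 : 0 ≤ β * dl ^ 2 := by positivity
      have h4 : β * u ^ 2 ≤ β * dl ^ 2 := by gcongr
      have h5 := hu.2
      gcongr
      refine le_min ?_ (by linarith)
      unfold hh; linarith
  have i2 := intervalIntegral.integral_mono_on (μ := volume) (a := dl) (b := 2 * dl)
    (f := fun u => (1 - 4 * β * dl ^ 2 - 5 * η / 2) - u) (by rw [hdl]; norm_num)
    ((by fun_prop : Continuous _).intervalIntegrable _ _) (hc.intervalIntegrable _ _)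
    fun u hu => by
      refine le_trans ?_ (hlow u (by linarith [hu.1]) (by rw [hdl] at hu; linarith [hu.2]))
      have h2 : u ^ 2 ≤ (2 * dl) ^ 2 := by
        have := hu.1; have := hu.2; gcongr; linarith
      have h3 : 0 ≤ β * dl ^ 2 := by positivity
      have h4 : β * u ^ 2 ≤ β * (2 * dl) ^ 2 := by gcongr
      have h5 := hu.1
      have : 1 - u - 4 * β * dl ^ 2 ≤ min (1 - u) (hh - β * u ^ 2) := by
        refine le_min (by linarith) ?_
        unfold hh; nlinarith
      linarith
  have i3 := intervalIntegral.integral_mono_on (μ := volume) (a := 2 * dl) (b := 1 - 4 * η)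
    (f := fun u => (1 - 5 * η / 2) - u) (by rw [hdl]; linarith)
    ((by fun_prop : Continuous _).intervalIntegrable _ _) (hc.intervalIntegrable _ _)
    fun u hu => by
      refine le_trans ?_ (hlow u (by linarith [hu.1]) hu.2)
      have h5 := hu.1
      have h6 := hu.2
      have h7 : 0 ≤ u := by rw [hdl] at h5; linarith
      have : 1 - u ≤ min (1 - u) (hh - β * u ^ 2) := by
        refine le_min le_rfl ?_
        have : β * u ^ 2 ≤ u / 2 := by nlinarith
        unfold hh; linarith
      linarith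
  rw [lin] at i2 i3
  simp only [intervalIntegral.integral_const, smul_eq_mul] at i1
  refine le_trans ?_ (add_le_add i1 (add_le_add i2 i3))
  unfold MM hh
  rw [hdl] at *
  nlinarith [mul_nonneg hβ hη.le]

end Pool.Agent.H55Z.Iso
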