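import Mathlib
import Pool.Agent.H55Z.Iso.One

set_option autoImplicit false

namespace Pool.Agent.H55Z.Iso

open MeasureTheory Set Filter Topology Metric

lemma pd_line {a : V → ℝ} {p : V} {i : Fin 3} {d : ℝ} (ha : DifferentiableAt ℝ a p)
    (h : HasDerivAt (fun t : ℝ => a (p + t • ee i)) d 0) : pd i a p = d := by
  have h1 : HasLineDerivAt ℝ a d p (ee i) := h
  rw [← h1.lineDeriv, ha.lineDeriv_eq_fderiv]
  rfl

noncomputable def uu (η : ℝ) (p : V) : ℝ := √(p 1 ^ 2 + p 0 ^ 2 / 2 + η ^ 2)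
noncomputable def psi (β η : ℝ) (p : V) : ℝ := prim (gam β η) η (uu η p)
noncomputable def gx (β η : ℝ) (p : V) : ℝ := gam β η (uu η p) * (p 0 / (2 * uu η p))
noncomputable def gy (β η : ℝ) (p : V) : ℝ := gam β η (uu η p) * (p 1 / uu η p)
noncomputable def ww (β η : ℝ) (p : V) : ℝ := √(gx β η p ^ 2 + gy β η p ^ 2 + η ^ 2)
noncomputable def tau (β η : ℝ) (p : V) : ℝ := TT η (p 2 / ww β η p)
noncomputable def sg (η r m : ℝ) (p : V) : ℝ := TT η ((p 2 - m * p 0) / r)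
noncomputable def ss (η r m : ℝ) (p : V) : ℝ := 2 / II η * TT η ((p 1 - m * p 0) / r) - 1

lemma cd_coord (i : Fin 3) : ContDiff ℝ 2 fun p : V => p i :=
  (EuclideanSpace.proj i : V →L[ℝ] ℝ).contDiff

lemma uu_pos {η : ℝ} (hη : 0 < η) (p : V) : 0 < uu η p := Real.sqrt_pos.2 (by positivity)

lemma uu_sq {η : ℝ} (p : V) : uu η p ^ 2 = p 1 ^ 2 + p 0 ^ 2 / 2 + η ^ 2 :=
  Real.sq_sqrt (by positivity)

lemma uu_cd {η : ℝ} (hη : 0 < η) : ContDiff ℝ 2 (uu η) :=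
  ContDiff.sqrt ((((cd_coord 1).pow 2).add (((cd_coord 0).pow 2).div_const 2)).add contDiff_const)
    fun p => by positivity

lemma psi_cd (β : ℝ) {η : ℝ} (hη : 0 < η) : ContDiff ℝ 2 (psi β η) :=
  (prim_cd ((gam_cd β hη).of_le (by norm_num)) η).comp (uu_cd hη)

lemma gx_cd (β : ℝ) {η : ℝ} (hη : 0 < η) : ContDiff ℝ 2 (gx β η) :=
  ((gam_cd β hη).comp (uu_cd hη)).mul ((cd_coord 0).div (contDiff_const.mul (uu_cd hη))
    fun p => by have := uu_pos hη p; positivity)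

lemma gy_cd (β : ℝ) {η : ℝ} (hη : 0 < η) : ContDiff ℝ 2 (gy β η) :=
  ((gam_cd β hη).comp (uu_cd hη)).mul ((cd_coord 1).div (uu_cd hη) fun p => (uu_pos hη p).ne')

lemma ww_pos (β : ℝ) {η : ℝ} (hη : 0 < η) (p : V) : 0 < ww β η p :=
  Real.sqrt_pos.2 (by positivity)

lemma ww_sq (β η : ℝ) (p : V) : ww β η p ^ 2 = gx β η p ^ 2 + gy β η p ^ 2 + η ^ 2 :=
  Real.sq_sqrt (by positivity)

lemma ww_cd (β : ℝ) {η : ℝ} (hη : 0 < η) : ContDiff ℝ 2 (ww β η) :=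
  ContDiff.sqrt ((((gx_cd β hη).pow 2).add ((gy_cd β hη).pow 2)).add contDiff_const)
    fun p => by positivity

lemma arg_cd (β : ℝ) {η : ℝ} (hη : 0 < η) : ContDiff ℝ 2 fun p : V => p 2 / ww β η p :=
  (cd_coord 2).div (ww_cd β hη) fun p => (ww_pos β hη p).ne'

lemma tau_cd (β : ℝ) {η : ℝ} (hη : 0 < η) : ContDiff ℝ 2 (tau β η) :=
  (TT_cd η).comp (arg_cd β hη)

lemma sg_cd (η r m : ℝ) : ContDiff ℝ 2 (sg η r m) :=
  (TT_cd η).comp (((cd_coord 2).sub (contDiff_const.mul (cd_coord 0))).div_const r)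

lemma ss_cd (η r m : ℝ) : ContDiff ℝ 2 (ss η r m) :=
  (contDiff_const.mul ((TT_cd η).comp
    (((cd_coord 1).sub (contDiff_const.mul (cd_coord 0))).div_const r))).sub contDiff_const

lemma cd_diff {a : V → ℝ} (h : ContDiff ℝ 2 a) (p : V) : DifferentiableAt ℝ a p :=
  h.differentiable (by norm_num) p

lemma pd_uu0 {η : ℝ} (hη : 0 < η) (p : V) : pd 0 (uu η) p = p 0 / (2 * uu η p) := by
  refine pd_line (cd_diff (uu_cd hη) p) ?_
  have h1 : HasDerivAt (fun t : ℝ => p 1 ^ 2 + (p 0 + t) ^ 2 / 2 + η ^ 2) (p 0) 0 := by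
    have := (((((hasDerivAt_id (0 : ℝ)).const_add (p 0)).pow 2).div_const 2).const_add
      (p 1 ^ 2)).add_const (η ^ 2)
    refine HasDerivAt.congr_deriv this ?_
    simp
  have h2 := h1.sqrt (by positivity)
  simpa [uu] using h2

lemma pd_uu1 {η : ℝ} (hη : 0 < η) (p : V) : pd 1 (uu η) p = p 1 / uu η p := by
  refine pd_line (cd_diff (uu_cd hη) p) ?_
  have h1 : HasDerivAt (fun t : ℝ => (p 1 + t) ^ 2 + p 0 ^ 2 / 2 + η ^ 2) (2 * p 1) 0 := by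
    have := ((((hasDerivAt_id (0 : ℝ)).const_add (p 1)).pow 2).add_const
      (p 0 ^ 2 / 2)).add_const (η ^ 2)
    refine HasDerivAt.congr_deriv this ?_
    simp
  have h2 := h1.sqrt (by positivity)
  rw [mul_div_mul_left _ _ (two_ne_zero)] at h2
  simpa [uu] using h2

lemma pd_uu2 {η : ℝ} (hη : 0 < η) (p : V) : pd 2 (uu η) p = 0 := by
  refine pd_line (cd_diff (uu_cd hη) p) ?_
  simpa [uu] using hasDerivAt_const (0 : ℝ) _

lemma pd_psi (β : ℝ) {η : ℝ} (hη : 0 < η) (p : V) (i : Fin 3) :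
    pd i (psi β η) p = gam β η (uu η p) * pd i (uu η) p :=
  pd_comp (prim_deriv (gam_cd β hη).continuous η _) (cd_diff (uu_cd hη) p) i

lemma pd_psi0 (β : ℝ) {η : ℝ} (hη : 0 < η) (p : V) : pd 0 (psi β η) p = gx β η p := by
  rw [pd_psi β hη, pd_uu0 hη]; rfl

lemma pd_psi1 (β : ℝ) {η : ℝ} (hη : 0 < η) (p : V) : pd 1 (psi β η) p = gy β η p := by
  rw [pd_psi β hη, pd_uu1 hη]; rfl

lemma pd_psi2 (β : ℝ) {η : ℝ} (hη : 0 < η) (p : V) : pd 2 (psi β η) p = 0 := by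
  rw [pd_psi β hη, pd_uu2 hη, mul_zero]

lemma pd_tau (β : ℝ) {η : ℝ} (hη : 0 < η) (p : V) (i : Fin 3) :
    pd i (tau β η) p = chi η (p 2 / ww β η p) * pd i (fun q : V => q 2 / ww β η q) p :=
  pd_comp (a := fun q : V => q 2 / ww β η q) (TT_deriv η _) (cd_diff (arg_cd β hη) p) i

lemma pd_tau2 (β : ℝ) {η : ℝ} (hη : 0 < η) (p : V) :
    pd 2 (tau β η) p = chi η (p 2 / ww β η p) / ww β η p := by
  rw [pd_tau β hη, div_eq_mul_one_div (chi _ _)]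
  congr 1
  refine pd_line (cd_diff (arg_cd β hη) p) ?_
  have e : ∀ t : ℝ, ww β η (p + t • ee 2) = ww β η p := by
    intro t; simp [ww, gx, gy, uu]
  simp only [e]
  simpa using ((hasDerivAt_id (0 : ℝ)).const_add (p 2)).div_const (ww β η p)

lemma pd_sg2 (η r m : ℝ) (p : V) : pd 2 (sg η r m) p = chi η ((p 2 - m * p 0) / r) / r := by
  refine pd_line (cd_diff (sg_cd η r m) p) ?_
  have h1 : HasDerivAt (fun t : ℝ => (p 2 + t - m * p 0) / r) (1 / r) 0 :=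
    (((hasDerivAt_id (0 : ℝ)).const_add (p 2)).sub_const (m * p 0)).div_const r
  have h2 := (TT_deriv η _).comp (0 : ℝ) h1
  simpa [sg, Function.comp_def, div_eq_mul_inv] using h2

lemma pd_ss0 (η r m : ℝ) (p : V) :
    pd 0 (ss η r m) p = -m * (2 / II η * chi η ((p 1 - m * p 0) / r) / r) := by
  refine pd_line (cd_diff (ss_cd η r m) p) ?_
  have h1 : HasDerivAt (fun t : ℝ => (p 1 - m * (p 0 + t)) / r) (-(m * 1) / r) 0 :=
    ((((hasDerivAt_id (0 : ℝ)).const_add (p 0)).const_mul m).const_sub (p 1)).div_const r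
  have h2 := (((TT_deriv η _).comp (0 : ℝ) h1).const_mul (2 / II η)).sub_const 1
  refine HasDerivAt.congr_deriv (by simpa [ss, Function.comp_def] using h2) ?_
  ring

lemma pd_ss1 (η r m : ℝ) (p : V) :
    pd 1 (ss η r m) p = 2 / II η * chi η ((p 1 - m * p 0) / r) / r := by
  refine pd_line (cd_diff (ss_cd η r m) p) ?_
  have h1 : HasDerivAt (fun t : ℝ => (p 1 + t - m * p 0) / r) (1 / r) 0 :=
    (((hasDerivAt_id (0 : ℝ)).const_add (p 1)).sub_const (m * p 0)).div_const r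
  have h2 := (((TT_deriv η _).comp (0 : ℝ) h1).const_mul (2 / II η)).sub_const 1
  refine HasDerivAt.congr_deriv (by simpa [ss, Function.comp_def] using h2) ?_
  ring

lemma pd_ss2 (η r m : ℝ) (p : V) : pd 2 (ss η r m) p = 0 := by
  refine pd_line (cd_diff (ss_cd η r m) p) ?_
  simpa [ss] using hasDerivAt_const (0 : ℝ) _

/-- the calibrating field -/
noncomputable def Phi (β η r m m' : ℝ) (p : V) : V :=
  XX (ss η r m) (psi β η) (tau β η) p +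
    XX (fun q => tau β η q - sg η r m' q) (psi β η) (ss η r m) p

lemma XX1_cd (β : ℝ) {η : ℝ} (hη : 0 < η) (r m : ℝ) :
    ContDiff ℝ 1 (XX (ss η r m) (psi β η) (tau β η)) :=
  XX_cd ((ss_cd η r m).of_le (by norm_num)) (psi_cd β hη) (tau_cd β hη)

lemma XX2_cd (β : ℝ) {η : ℝ} (hη : 0 < η) (r m m' : ℝ) :
    ContDiff ℝ 1 (XX (fun q => tau β η q - sg η r m' q) (psi β η) (ss η r m)) :=
  XX_cd (((tau_cd β hη).sub (sg_cd η r m')).of_le (by norm_num)) (psi_cd β hη) (ss_cd η r m)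

lemma Phi_cd (β : ℝ) {η : ℝ} (hη : 0 < η) (r m m' : ℝ) : ContDiff ℝ 1 (Phi β η r m m') :=
  (XX1_cd β hη r m).add (XX2_cd β hη r m m')

lemma Phi_0 (β : ℝ) {η : ℝ} (hη : 0 < η) (r m m' : ℝ) (p : V) :
    Phi β η r m m' p 0 = ss η r m p * gy β η p * (chi η (p 2 / ww β η p) / ww β η p) := by
  simp only [Phi, PiLp.add_apply, XX_0, cr, pd_psi1 β hη, pd_psi2 β hη, pd_tau2 β hη, pd_ss2]
  ring

lemma Phi_1 (β : ℝ) {η : ℝ} (hη : 0 < η) (r m m' : ℝ) (p : V) :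
    Phi β η r m m' p 1 = -(ss η r m p * gx β η p * (chi η (p 2 / ww β η p) / ww β η p)) := by
  simp only [Phi, PiLp.add_apply, XX_1, cr, pd_psi0 β hη, pd_psi2 β hη, pd_tau2 β hη, pd_ss2]
  ring

lemma Phi_2 (β : ℝ) {η : ℝ} (hη : 0 < η) (r m m' : ℝ) (p : V) :
    Phi β η r m m' p 2 = ss η r m p * cr 0 1 (psi β η) (tau β η) p +
      (tau β η p - sg η r m' p) * ((gx β η p + m * gy β η p) *
        (2 / II η * chi η ((p 1 - m * p 0) / r) / r)) := by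
  simp only [Phi, PiLp.add_apply, XX_2]
  congr 1
  simp only [cr, pd_psi0 β hη, pd_psi1 β hη, pd_ss0, pd_ss1]
  ring

lemma dv_Phi (β : ℝ) {η : ℝ} (hη : 0 < η) (r m m' : ℝ) (p : V) :
    dv (Phi β η r m m') p = -(chi η ((p 2 - m' * p 0) / r) / r) * ((gx β η p + m * gy β η p) *
        (2 / II η * chi η ((p 1 - m * p 0) / r) / r)) := by
  have h := dv_add ((XX1_cd β hη r m).differentiable (by norm_num) p)
    ((XX2_cd β hη r m m').differentiable (by norm_num) p)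
  refine h.trans ?_
  rw [dv_XX ((ss_cd η r m).of_le (by norm_num)) (psi_cd β hη) (tau_cd β hη),
    dv_XX (((tau_cd β hη).sub (sg_cd η r m')).of_le (by norm_num)) (psi_cd β hη) (ss_cd η r m),
    pd_sub (cd_diff (tau_cd β hη) p) (cd_diff (sg_cd η r m') p) 2]
  simp only [cr, pd_psi0 β hη, pd_psi1 β hη, pd_psi2 β hη, pd_ss0, pd_ss1, pd_ss2, pd_sg2]
  ring

lemma grad_real {α η w u g x y H : ℝ} (hη : 0 < η) (hu : 0 < u) (hx : 0 ≤ x)
    (hu1 : u ≤ 1) (g0 : 0 ≤ g) (g1 : g ≤ 1 - u - 2 * η) (g2 : g ≤ H - 4 * α ^ 2 * u ^ 2 - 2 * η)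
    (hA : 1 / 2 ≤ H - 4 * α ^ 2 * u ^ 2 - 2 * η) (hu2 : u ^ 2 = y ^ 2 + x ^ 2 / 2 + η ^ 2)
    (hw2 : w ^ 2 = g ^ 2 * (x ^ 2 / (2 * u) ^ 2) + g ^ 2 * (y ^ 2 / u ^ 2) + η ^ 2) :
    w + η ≤ 1 - y ∧ w + η ≤ H - α * x ∧ x ≤ 2 := by
  have hyu : y ≤ u := (abs_le_of_sq_le_sq' (by nlinarith) hu.le).2
  obtain ⟨k, hk⟩ : ∃ k, k = x ^ 2 / (4 * u ^ 2) := ⟨_, rfl⟩
  have hk0 : 0 ≤ k := by rw [hk]; positivity
  have hk1 : k * (4 * u ^ 2) = x ^ 2 := by rw [hk]; field_simp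
  have hk2 : k ≤ 1 / 2 := by rw [hk, div_le_iff₀ (by positivity)]; nlinarith
  have hG : w ^ 2 ≤ g ^ 2 * (1 - k) + η ^ 2 := by
    have e : x ^ 2 / (2 * u) ^ 2 + y ^ 2 / u ^ 2 ≤ 1 - k := by
      have : x ^ 2 / (2 * u) ^ 2 + y ^ 2 / u ^ 2 = 1 - k - η ^ 2 / u ^ 2 := by
        rw [hk]; field_simp; linarith
      have h3 : 0 ≤ η ^ 2 / u ^ 2 := by positivity
      linarith
    have := mul_le_mul_of_nonneg_left e (sq_nonneg g)
    linarith
  have hgk : 0 ≤ g * (1 - k / 2) := mul_nonneg g0 (by linarith)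
  have hw3 : w ≤ g * (1 - k / 2) + η := by
    refine (abs_le_of_sq_le_sq' (hG.trans ?_) (by linarith)).2
    have h1 := mul_nonneg hgk hη.le
    have h2 := sq_nonneg (g * k)
    nlinarith
  have hgk2 : g * (1 - k / 2) ≤ g := by nlinarith
  refine ⟨by linarith, ?_, (abs_le_of_sq_le_sq' (by nlinarith) (by norm_num)).2⟩
  obtain ⟨A, hA2⟩ : ∃ A, A = H - 4 * α ^ 2 * u ^ 2 - 2 * η := ⟨_, rfl⟩
  rw [← hA2] at hA g2
  have h4 : g * (1 - k / 2) ≤ A * (1 - k / 2) := by gcongr; linarith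
  have h5 : α * x ≤ 4 * α ^ 2 * u ^ 2 + k / 4 := by
    have h6 : (α * x) ^ 2 ≤ (4 * α ^ 2 * u ^ 2 + k / 4) ^ 2 := by
      rw [mul_pow, ← hk1]
      nlinarith [sq_nonneg (4 * α ^ 2 * u ^ 2 - k / 4), mul_nonneg hk0 (sq_nonneg (α * u))]
    exact (abs_le_of_sq_le_sq' h6 (by positivity)).2
  have h7 : k / 4 ≤ A * (k / 2) := by nlinarith
  nlinarith

lemma grad_bounds {α η : ℝ} (hα : 0 < α) (hα1 : α ≤ 1 / 100) (hη : 0 < η) (hη1 : η ≤ 1 / 100)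
    {p : V} (h : gam (4 * α ^ 2) η (uu η p) ≠ 0) :
    ww (4 * α ^ 2) η p + η ≤ 1 - |p 1| ∧ ww (4 * α ^ 2) η p + η ≤ hh - α * |p 0| ∧ |p 0| ≤ 2 := by
  have hβ1 : 4 * α ^ 2 ≤ 1 / 100 := by nlinarith
  obtain ⟨g0, g1, g2⟩ := gam_bounds (by positivity) hβ1 hη hη1 h
  obtain ⟨u1, u2⟩ := gam_ne hη h
  have hu := uu_pos hη p
  refine grad_real hη hu (abs_nonneg _) (by linarith) g0 g1 g2 ?_ ?_ ?_
  · have : uu η p ^ 2 ≤ 1 := by nlinarith
    unfold hh dl; nlinarith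
  · rw [sq_abs, sq_abs, uu_sq]
  · rw [sq_abs, sq_abs, ww_sq, gx, gy, mul_pow, mul_pow, div_pow, div_pow]

end Pool.Agent.H55Z.Iso
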