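import Mathlib
import Pool.Agent.H55Z.Iso.Field

set_option autoImplicit false

namespace Pool.Agent.H55Z.Iso

open MeasureTheory Set Filter Topology Metric

def KK (α η : ℝ) : Set V := {p | |p 2| + η ≤ 1 - |p 1| ∧ |p 2| + η ≤ hh - α * |p 0|}

lemma isClosed_KK (α η : ℝ) : IsClosed (KK α η) := by
  have h1 : IsClosed {p : V | |p 2| + η ≤ 1 - |p 1|} := isClosed_le (by fun_prop) (by fun_prop)
  have h2 : IsClosed {p : V | |p 2| + η ≤ hh - α * |p 0|} := isClosed_le (by fun_prop) (by fun_prop)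
  exact h1.inter h2

lemma KK_sub (α : ℝ) {η : ℝ} (hη : 0 < η) : KK α η ⊆ Om α :=
  fun p hp => ⟨by linarith [hp.1], by linarith [hp.2]⟩

lemma norm_le_three (p : V) : ‖p‖ ≤ |p 0| + |p 1| + |p 2| := by
  rw [EuclideanSpace.norm_eq, Real.sqrt_le_left (by positivity), Fin.sum_univ_three]
  simp only [Real.norm_eq_abs]
  have := abs_nonneg (p 0); have := abs_nonneg (p 1); have := abs_nonneg (p 2)
  nlinarith [mul_nonneg (abs_nonneg (p 0)) (abs_nonneg (p 1)),
    mul_nonneg (abs_nonneg (p 0)) (abs_nonneg (p 2)), mul_nonneg (abs_nonneg (p 1)) (abs_nonneg (p 2))]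

lemma Om_box {α : ℝ} {p : V} (hp : p ∈ Om α) : α * |p 0| ≤ 1 ∧ |p 1| ≤ 1 ∧ |p 2| ≤ 1 := by
  obtain ⟨h1, h2⟩ := hp
  have := abs_nonneg (p 1); have := abs_nonneg (p 2)
  unfold hh dl at h2
  have h3 : |p 2| < 1 := by linarith
  exact ⟨by linarith, by linarith, h3.le⟩

lemma isBounded_Om {α : ℝ} (hα : 0 < α) : Bornology.IsBounded (Om α) := by
  rw [isBounded_iff_forall_norm_le]
  refine ⟨1 / α + 2, fun p hp => (norm_le_three p).trans ?_⟩
  obtain ⟨h1, h2, h3⟩ := Om_box hp
  have : |p 0| ≤ 1 / α := by rw [le_div_iff₀ hα]; linarith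
  linarith

lemma isCompact_KK {α η : ℝ} (hα : 0 < α) (hη : 0 < η) : IsCompact (KK α η) :=
  Metric.isCompact_of_isClosed_isBounded (isClosed_KK α η) ((isBounded_Om hα).subset (KK_sub α hη))

lemma Phi_zero {α η r m m' : ℝ} (hα : 0 < α) (hα1 : α ≤ 1 / 100) (hη : 0 < η) (hη1 : η ≤ 1 / 100)
    (hr : 0 < r) (hr1 : r ≤ η) (hm : |m| ≤ 1 / 100) (hm' : |m'| ≤ 1 / 100) {p : V}
    (hp : p ∉ KK α η) : Phi (4 * α ^ 2) η r m m' p = 0 := by
  set β := 4 * α ^ 2
  have key : Phi β η r m m' p 0 = 0 ∧ Phi β η r m m' p 1 = 0 ∧ Phi β η r m m' p 2 = 0 := by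
    rw [Phi_0 β hη, Phi_1 β hη, Phi_2 β hη]
    by_cases hg : gam β η (uu η p) = 0
    · have h1 : gx β η p = 0 := by simp [gx, hg]
      have h2 : gy β η p = 0 := by simp [gy, hg]
      simp [cr, pd_psi0 β hη, pd_psi1 β hη, h1, h2]
    · obtain ⟨b1, b2, b3⟩ := grad_bounds hα hα1 hη hη1 hg
      have hw := ww_pos β hη p
      have hz : ww β η p < |p 2| := by
        by_contra h
        exact hp ⟨by linarith, by linarith⟩
      have hchi : chi η (p 2 / ww β η p) = 0 := by
        by_contra h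
        have := chi_ne hη h
        rw [abs_div, abs_of_pos hw, div_lt_one hw] at this
        linarith
      have hcr : cr 0 1 (psi β η) (tau β η) p = 0 := by
        simp [cr, pd_tau β hη, hchi]
      rw [hchi, hcr]
      refine ⟨by simp, by simp, ?_⟩
      by_cases hc : chi η ((p 1 - m * p 0) / r) = 0
      · simp [hc]
      · have h1 := chi_ne hη hc
        rw [abs_div, abs_of_pos hr, div_lt_one hr] at h1
        have h2 : |m * p 0| ≤ 1 / 100 * 2 := by rw [abs_mul]; gcongr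
        have h3 : |m' * p 0| ≤ 1 / 100 * 2 := by rw [abs_mul]; gcongr
        have h4 : |p 1| ≤ 3 / 100 := by
          have := abs_sub_abs_le_abs_sub (p 1) (m * p 0)
          linarith
        have h5 : α * |p 0| ≤ 1 / 100 * 2 := by gcongr
        have h6 : 9 / 10 < |p 2| := by
          by_contra h
          exact hp ⟨by linarith, by unfold hh dl; linarith⟩
        have h7 := abs_le.1 h3
        have : tau β η p = sg η r m' p := by
          unfold tau sg
          rcases le_total 0 (p 2) with h | h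
          · rw [abs_of_nonneg h] at hz h6
            rw [TT_high hη (by rw [le_div_iff₀ hw]; linarith),
              TT_high hη (by rw [le_div_iff₀ hr]; linarith)]
          · rw [abs_of_nonpos h] at hz h6
            rw [TT_low hη (by rw [div_le_iff₀ hw]; linarith),
              TT_low hη (by rw [div_le_iff₀ hr]; linarith)]
        simp [this]
  ext i
  fin_cases i
  · exact key.1
  · exact key.2.1
  · exact key.2.2

lemma ss_abs {η : ℝ} (hη : 0 < η) (hη1 : η ≤ 1 / 100) (r m : ℝ) (p : V) : |ss η r m p| ≤ 1 := by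
  have h1 := II_ge hη (by linarith)
  have hI : 0 < II η := by linarith
  have h2 := TT_nonneg hη ((p 1 - m * p 0) / r)
  have h3 := TT_le hη ((p 1 - m * p 0) / r)
  have h4 : 2 / II η * TT η ((p 1 - m * p 0) / r) ≤ 2 := by
    rw [div_mul_eq_mul_div, div_le_iff₀ hI]; linarith
  have h5 : 0 ≤ 2 / II η * TT η ((p 1 - m * p 0) / r) := by positivity
  unfold ss
  exact abs_le.2 ⟨by linarith, by linarith⟩

lemma Phi_01 (β : ℝ) {η : ℝ} (hη : 0 < η) (hη1 : η ≤ 1 / 100) (r m m' : ℝ) (p : V) :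
    Phi β η r m m' p 0 ^ 2 + Phi β η r m m' p 1 ^ 2 ≤ 1 := by
  rw [Phi_0 β hη, Phi_1 β hη]
  have hw := ww_pos β hη p
  have hw2 := ww_sq β η p
  have h1 : ss η r m p ^ 2 ≤ 1 := by
    rw [← sq_abs]; exact pow_le_one₀ (abs_nonneg _) (ss_abs hη hη1 r m p)
  have h2 : chi η (p 2 / ww β η p) ^ 2 ≤ 1 := pow_le_one₀ (plat_nonneg _ _ _ _) (plat_le _ _ _ _)
  have h3 : (gx β η p ^ 2 + gy β η p ^ 2) / ww β η p ^ 2 ≤ 1 := by
    rw [div_le_one (by positivity)]; nlinarith
  calc _ = ss η r m p ^ 2 * chi η (p 2 / ww β η p) ^ 2 *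
        ((gx β η p ^ 2 + gy β η p ^ 2) / ww β η p ^ 2) := by ring
    _ ≤ 1 * 1 * 1 := by gcongr
    _ = 1 := by norm_num

lemma g_abs {α η : ℝ} (hα : 0 < α) (hα1 : α ≤ 1 / 100) (hη : 0 < η) (hη1 : η ≤ 1 / 100) (p : V) :
    |gx (4 * α ^ 2) η p| ≤ 1 ∧ |gy (4 * α ^ 2) η p| ≤ 1 := by
  by_cases hg : gam (4 * α ^ 2) η (uu η p) = 0
  · simp [gx, gy, hg]
  · obtain ⟨b1, -, -⟩ := grad_bounds hα hα1 hη hη1 hg
    have hw := ww_pos (4 * α ^ 2) hη p
    have hw2 := ww_sq (4 * α ^ 2) η p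
    have := abs_nonneg (p 1)
    have h1 : ww (4 * α ^ 2) η p ^ 2 ≤ 1 := pow_le_one₀ hw.le (by linarith)
    constructor
    · exact abs_le_one_iff_mul_self_le_one.2 (by nlinarith)
    · exact abs_le_one_iff_mul_self_le_one.2 (by nlinarith)

lemma integral_Phi (β : ℝ) {η r : ℝ} (hη : 0 < η) (hr : 0 < r) (hr1 : r ≤ η) (hη1 : η ≤ 1 / 100)
    (m m' : ℝ) (hint : Integrable fun q : ℝ × ℝ => Phi β η r m m' (pt 0 q.1 q.2) 0) :
    ∫ q : ℝ × ℝ, Phi β η r m m' (pt 0 q.1 q.2) 0 =
      II η * (2 * ∫ u in η..√(1 + η ^ 2), gam β η u) := by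
  have hI : 0 < II η := by have := II_ge hη (by linarith); linarith
  let F : ℝ → ℝ := fun t => gam β η (√(t ^ 2 + η ^ 2)) * (t / √(t ^ 2 + η ^ 2))
  refine (integral_prod _ hint).trans ?_
  have h1 : ∀ y : ℝ, ∫ z, Phi β η r m m' (pt 0 y z) 0 = II η * F |y| := by
    intro y
    have e1 : ∀ z, ww β η (pt 0 y z) = ww β η (pt 0 y 0) := fun z => by simp [ww, gx, gy, uu]
    have e2 : ∀ z, ss η r m (pt 0 y z) * gy β η (pt 0 y z) = F |y| := by
      intro z
      have hu : uu η (pt 0 y z) = √(y ^ 2 + η ^ 2) := by simp [uu]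
      simp only [gy, hu, F, sq_abs, pt_1]
      by_cases hg : gam β η (√(y ^ 2 + η ^ 2)) = 0
      · simp [hg]
      · have h2 := (gam_ne hη hg).1
        rw [Real.lt_sqrt (by positivity)] at h2
        have h3 : η ≤ |y| := by
          by_contra h
          have : |y| ^ 2 ≤ η ^ 2 := by have := abs_nonneg y; gcongr; linarith
          rw [sq_abs] at this; nlinarith
        simp only [ss, pt_0, pt_1, mul_zero, sub_zero]
        rcases le_total 0 y with h | h
        · rw [abs_of_nonneg h] at h3 ⊢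
          rw [TT_high hη (by rw [le_div_iff₀ hr]; linarith)]
          field_simp; ring
        · rw [abs_of_nonpos h] at h3 ⊢
          rw [TT_low hη (by rw [div_le_iff₀ hr]; linarith)]
          ring
    have hw := ww_pos β hη (pt 0 y 0)
    simp only [Phi_0 β hη, e1, e2, pt_2]
    rw [integral_const_mul, integral_div, Measure.integral_comp_div (chi η), integral_chi hη,
      abs_of_pos hw, smul_eq_mul]
    field_simp
  simp only [h1]
  rw [integral_const_mul, integral_comp_abs (f := F)]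
  congr 2
  have hs : ∀ t : ℝ, HasDerivAt (fun t : ℝ => √(t ^ 2 + η ^ 2)) (t / √(t ^ 2 + η ^ 2)) t := by
    intro t
    have h2 : HasDerivAt (fun t : ℝ => t ^ 2 + η ^ 2) (2 * t) t := by
      simpa using (hasDerivAt_pow 2 t).add_const (η ^ 2)
    have h3 := h2.sqrt (by positivity)
    rwa [mul_div_mul_left _ _ two_ne_zero] at h3
  have hd : ∀ t : ℝ, HasDerivAt (fun t : ℝ => prim (gam β η) η (√(t ^ 2 + η ^ 2))) (F t) t :=
    fun t => (prim_deriv (gam_cd β hη).continuous η _).comp t (hs t)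
  have hF : Continuous F := by
    refine ((gam_cd β hη).continuous.comp (by fun_prop)).mul
      (continuous_id.div (by fun_prop) fun t => ?_)
    exact (Real.sqrt_pos.2 (by positivity)).ne'
  rw [setIntegral_eq_of_subset_of_forall_sdiff_eq_zero measurableSet_Ioi
    (Ioc_subset_Ioi_self : Ioc (0 : ℝ) 1 ⊆ Ioi 0), ← intervalIntegral.integral_of_le zero_le_one,
    intervalIntegral.integral_eq_sub_of_hasDerivAt (fun t _ => hd t) (hF.intervalIntegrable _ _)]
  · simp [prim, Real.sqrt_sq hη.le]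
  · intro t ht
    have h2 : 1 < t := by
      by_contra h
      exact ht.2 ⟨ht.1, not_lt.1 h⟩
    have hg : gam β η (√(t ^ 2 + η ^ 2)) = 0 := by
      by_contra hg
      have h3 := (gam_ne hη hg).2
      have h4 : 1 ≤ √(t ^ 2 + η ^ 2) := Real.le_sqrt_of_sq_le (by nlinarith)
      linarith
    simp [F, hg]

theorem lower {α κ : ℝ} (hα : 0 < α) (hα1 : α ≤ 1 / 100) (hκ : 0 < κ) :
    ∃ K : ℝ, 0 ≤ K ∧ ∀ m m' : ℝ, |m| ≤ 1 / 100 → |m'| ≤ 1 / 100 → ∃ φ : V → V, ContDiff ℝ 1 φ ∧
      HasCompactSupport φ ∧ tsupport φ ⊆ Om α ∧ (∀ p, φ p 0 ^ 2 + φ p 1 ^ 2 ≤ 1) ∧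
      (∀ p, |φ p 2| ≤ K) ∧
      (∀ p, dv φ p ≠ 0 → p 0 ≠ 0 ∧ |p 1 - m * p 0| ≤ κ * |p 0| ∧ |p 2 - m' * p 0| ≤ κ * |p 0|) ∧
      4 * MM - α ^ 2 * dl ^ 2 / 50 ≤ ∫ p in {p : V | p 0 < 0}, dv φ p := by
  have hdl : dl = 1 / 10000 := rfl
  obtain ⟨η, hηe⟩ : ∃ η, η = α ^ 2 * dl ^ 2 / 10000 := ⟨_, rfl⟩
  have hη : 0 < η := by rw [hηe, hdl]; positivity
  have hη2 : η ≤ dl / 3 := by rw [hηe, hdl]; nlinarith
  have hη1 : η ≤ 1 / 100 := by rw [hdl] at hη2; linarith
  obtain ⟨r, hre⟩ : ∃ r, r = η * min κ 1 := ⟨_, rfl⟩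
  have hr : 0 < r := by rw [hre]; exact mul_pos hη (lt_min hκ one_pos)
  have hr1 : r ≤ η := by rw [hre]; exact mul_le_of_le_one_right hη.le (min_le_right _ _)
  have hr2 : r ≤ η * κ := by rw [hre]; gcongr; exact min_le_left _ _
  set β := 4 * α ^ 2 with hβ
  have hI := II_ge hη (by linarith)
  have hI2 := II_le η
  obtain ⟨C, hC⟩ := (isCompact_KK hα hη).exists_bound_of_continuousOn
    (cr_cd (psi_cd β hη) (tau_cd β hη) 0 1).continuous.continuousOn
  refine ⟨|C| + 8 / r, by positivity, fun m m' hm hm' => ?_⟩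
  have hz : ∀ p, p ∉ KK α η → Phi β η r m m' p = 0 :=
    fun p hp => Phi_zero hα hα1 hη hη1 hr hr1 hm hm' hp
  have hcs : HasCompactSupport (Phi β η r m m') := HasCompactSupport.intro (isCompact_KK hα hη) hz
  refine ⟨Phi β η r m m', Phi_cd β hη r m m', hcs, ?_, Phi_01 β hη hη1 r m m', fun p => ?_,
    fun p hp => ?_, ?_⟩
  · refine (closure_minimal (fun p hp => ?_) (isClosed_KK α η)).trans (KK_sub α hη)
    by_contra h
    exact hp (hz p h)
  · by_cases hp : p ∈ KK α η
    · rw [Phi_2 β hη]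
      have h1 := ss_abs hη hη1 r m p
      have h2 : |cr 0 1 (psi β η) (tau β η) p| ≤ |C| := (hC p hp).trans (le_abs_self C)
      have h3 : |tau β η p - sg η r m' p| ≤ 2 := by
        have := TT_nonneg hη (p 2 / ww β η p)
        have := TT_le hη (p 2 / ww β η p)
        have := TT_nonneg hη ((p 2 - m' * p 0) / r)
        have := TT_le hη ((p 2 - m' * p 0) / r)
        unfold tau sg
        exact abs_le.2 ⟨by linarith, by linarith⟩
      obtain ⟨h4, h5⟩ := g_abs hα hα1 hη hη1 p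
      have h6 : |gx β η p + m * gy β η p| ≤ 1 + 1 / 100 * 1 := by
        refine (abs_add_le _ _).trans ?_
        rw [abs_mul]; gcongr
      have h7 : |2 / II η * chi η ((p 1 - m * p 0) / r) / r| ≤ 2 / (3 / 2) * 1 / r := by
        have k1 : 0 ≤ chi η ((p 1 - m * p 0) / r) := plat_nonneg _ _ _ _
        have k2 : chi η ((p 1 - m * p 0) / r) ≤ 1 := plat_le _ _ _ _
        have k3 : 0 < II η := by linarith
        rw [abs_of_nonneg (by positivity)]
        gcongr
        linarith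
      refine (abs_add_le _ _).trans ?_
      rw [abs_mul, abs_mul, abs_mul]
      calc _ ≤ 1 * |C| + 2 * ((1 + 1 / 100 * 1) * (2 / (3 / 2) * 1 / r)) := by gcongr
        _ ≤ |C| + 8 / r := by
          have : 0 < 1 / r := by positivity
          have e1 : 8 / r = 8 * (1 / r) := by ring
          have e2 : 2 / (3 / 2) * 1 / r = 4 / 3 * (1 / r) := by ring
          rw [e1, e2]; linarith
    · rw [hz p hp]
      simp only [PiLp.zero_apply, abs_zero]
      positivity
  · rw [dv_Phi β hη] at hp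
    have h1 : chi η ((p 2 - m' * p 0) / r) ≠ 0 := fun h => hp (by simp [h])
    have h2 : chi η ((p 1 - m * p 0) / r) ≠ 0 := fun h => hp (by simp [h])
    have h3 : gam β η (uu η p) ≠ 0 := fun h => hp (by simp [gx, gy, h])
    have h4 := chi_ne hη h1
    have h5 := chi_ne hη h2
    rw [abs_div, abs_of_pos hr, div_lt_one hr] at h4 h5
    have h6 := (gam_ne hη h3).1
    have h7 : η ≤ |p 0| := by
      by_contra h
      rw [not_le] at h
      have k1 : |m * p 0| ≤ 1 / 100 * η := by rw [abs_mul]; gcongr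
      have k2 : |p 1| ≤ 101 / 100 * η := by
        have := abs_sub_abs_le_abs_sub (p 1) (m * p 0)
        linarith
      have k3 : |p 1| ^ 2 ≤ (101 / 100 * η) ^ 2 := by gcongr
      have k4 : |p 0| ^ 2 ≤ η ^ 2 := by gcongr
      have k5 : (2 * η) ^ 2 ≤ uu η p ^ 2 := by gcongr
      rw [uu_sq] at k5
      rw [sq_abs] at k3 k4
      nlinarith
    have h8 : r ≤ κ * |p 0| := hr2.trans (by rw [mul_comm]; gcongr)
    exact ⟨fun h => by rw [h, abs_zero] at h7; linarith, by linarith, by linarith⟩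
  · have h1 := div_shear (Phi_cd β hη r m m') hcs (u := fun _ => 0) (u' := fun _ => 0)
      (fun y => hasDerivAt_const y _) continuous_const
    simp only [zero_mul, sub_zero] at h1
    have hint : Integrable fun q : ℝ × ℝ => Phi β η r m m' (pt 0 q.1 q.2) 0 := by
      apply Continuous.integrable_of_hasCompactSupport
      · have h2 := (Phi_cd β hη r m m').continuous
        have h3 : Continuous fun q : ℝ × ℝ => pt 0 q.1 q.2 := by simp only [pt_eq]; fun_prop
        fun_prop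
      · refine HasCompactSupport.intro (K := Icc (-1) 1 ×ˢ Icc (-1) 1)
          (isCompact_Icc.prod isCompact_Icc) fun q hq => ?_
        rw [hz _ fun h => hq ?_]
        · rfl
        · obtain ⟨-, k2, k3⟩ := Om_box (KK_sub α hη h)
          exact ⟨abs_le.1 k2, abs_le.1 k3⟩
    rw [h1, integral_Phi β hη hr hr1 hη1 m m' hint]
    have h2 := integral_gam (β := β) (by positivity) (by rw [hβ]; nlinarith) hη hη2
      (b := √(1 + η ^ 2)) (Real.le_sqrt_of_sq_le (by nlinarith))
    set D := ∫ u in η..√(1 + η ^ 2), gam β η u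
    have hM : MM ≤ 1 / 2 := by unfold MM hh dl; norm_num
    have hM' : 1 / 4 ≤ MM := by unfold MM hh dl; norm_num
    have h3 : 8 * β * dl ^ 3 = 32 * η := by rw [hβ, hηe, hdl]; ring
    have h4 : α ^ 2 * dl ^ 2 / 50 = 200 * η := by rw [hηe]; ring
    rw [h3] at h2
    rw [h4]
    have h5 : 0 ≤ MM - 32 * η - 10 * η := by linarith
    calc 4 * MM - 200 * η ≤ (2 - 2 * η) * (2 * (MM - 32 * η - 10 * η)) := by nlinarith
      _ ≤ II η * (2 * D) := by gcongr; linarith

end Pool.Agent.H55Z.Iso
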