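import Mathlib
import Pool.Agent.H55Z.Iso.Lower

set_option autoImplicit false

namespace Pool.Agent.H55Z.Iso

open MeasureTheory Set Filter Topology Metric
open scoped ENNReal

def det3 (a b c : V) : ℝ :=
  a 0 * b 1 * c 2 - a 0 * c 1 * b 2 - b 0 * a 1 * c 2 + b 0 * c 1 * a 2 + c 0 * a 1 * b 2
    - c 0 * b 1 * a 2

lemma cramer3 (a b c p : V) :
    det3 a b c • p = det3 p b c • a + det3 a p c • b + det3 a b p • c := by
  ext i; fin_cases i <;> simp [det3] <;> ring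

/-- the linear map with columns `a b c` -/
noncomputable def colMap (a b c : V) : V →ₗ[ℝ] V where
  toFun p := p 0 • a + p 1 • b + p 2 • c
  map_add' p q := by simp only [PiLp.add_apply, add_smul]; abel
  map_smul' t p := by simp only [PiLp.smul_apply, smul_eq_mul, RingHom.id_apply, smul_add, mul_smul]

lemma det_colMap (a b c : V) : LinearMap.det (colMap a b c) = det3 a b c := by
  rw [← LinearMap.det_toMatrix (EuclideanSpace.basisFun (Fin 3) ℝ).toBasis, Matrix.det_fin_three]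
  simp [LinearMap.toMatrix_apply, colMap, det3]

def box (s t : ℝ) : Set V := {p | |p 0| ≤ s ∧ |p 1| ≤ t ∧ |p 2| ≤ t}

lemma volume_box {s t : ℝ} (ht : 0 ≤ t) : volume (box s t) = ENNReal.ofReal (8 * s * t ^ 2) := by
  have h1 : box s t = (fun p : V => (((p 1, p 2), p 0) : W)) ⁻¹'
      ((Icc (-t) t ×ˢ Icc (-t) t) ×ˢ Icc (-s) s) := by
    ext p; simp only [box, mem_ofPred_eq, mem_preimage, mem_prod, mem_Icc, abs_le]; tauto
  rw [h1, mp_coord.measure_preimage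
    ((measurableSet_Icc.prod measurableSet_Icc).prod measurableSet_Icc).nullMeasurableSet,
    Measure.volume_eq_prod, Measure.prod_prod, Measure.volume_eq_prod, Measure.prod_prod,
    Real.volume_Icc, Real.volume_Icc, ← ENNReal.ofReal_mul (by linarith),
    ← ENNReal.ofReal_mul (by nlinarith)]
  congr 1; ring

lemma det3_bound {X r1 r2 r3 : ℝ} {a b c : V} (ha : a ∈ box (r1 * X) r1) (hb : b ∈ box (r2 * X) r2)
    (hc : c ∈ box (r3 * X) r3) : |det3 a b c| ≤ 6 * (r1 * r2 * r3 * X) := by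
  obtain ⟨a0, a1, a2⟩ := ha
  obtain ⟨b0, b1, b2⟩ := hb
  obtain ⟨c0, c1, c2⟩ := hc
  have t : ∀ {x y z A B C : ℝ}, |x| ≤ A → |y| ≤ B → |z| ≤ C → |x * y * z| ≤ A * B * C := by
    intro x y z A B C hx hy hz
    have := (abs_nonneg _).trans hx
    have := (abs_nonneg _).trans hy
    rw [abs_mul, abs_mul]; gcongr
  have k1 := abs_le.1 (t a0 b1 c2)
  have k2 := abs_le.1 (t a0 c1 b2)
  have k3 := abs_le.1 (t b0 a1 c2)
  have k4 := abs_le.1 (t b0 c1 a2)
  have k5 := abs_le.1 (t c0 a1 b2)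
  have k6 := abs_le.1 (t c0 b1 a2)
  unfold det3
  exact abs_le.2 ⟨by linarith, by linarith⟩

lemma exists_triple {S : Set V} {X : ℝ} (hS : S ⊆ box (1 * X) 1)
    (h0 : ∃ a ∈ S, ∃ b ∈ S, ∃ c ∈ S, det3 a b c ≠ 0) :
    ∃ a ∈ S, ∃ b ∈ S, ∃ c ∈ S, volume S ≤ ENNReal.ofReal (64 * |det3 a b c|) := by
  let T : Set ℝ := {t | ∃ a ∈ S, ∃ b ∈ S, ∃ c ∈ S, t = |det3 a b c|}
  have hT : BddAbove T := by
    refine ⟨6 * (1 * 1 * 1 * X), ?_⟩
    rintro t ⟨a, ha, b, hb, c, hc, rfl⟩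
    exact det3_bound (hS ha) (hS hb) (hS hc)
  have hle : ∀ a ∈ S, ∀ b ∈ S, ∀ c ∈ S, |det3 a b c| ≤ sSup T :=
    fun a ha b hb c hc => le_csSup hT ⟨a, ha, b, hb, c, hc, rfl⟩
  obtain ⟨a0, ha0, b0, hb0, c0, hc0, hd0⟩ := h0
  have hpos : 0 < sSup T := (abs_pos.2 hd0).trans_le (hle a0 ha0 b0 hb0 c0 hc0)
  obtain ⟨t, ⟨a, ha, b, hb, c, hc, rfl⟩, ht⟩ := exists_lt_of_lt_csSup
    (⟨_, a0, ha0, b0, hb0, c0, hc0, rfl⟩ : T.Nonempty) (half_lt_self hpos)
  refine ⟨a, ha, b, hb, c, hc, ?_⟩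
  have hD : 0 < |det3 a b c| := by linarith
  have hD' : det3 a b c ≠ 0 := abs_pos.1 hD
  have hsub : S ⊆ colMap a b c '' box 2 2 := by
    intro p hp
    refine ⟨pt (det3 p b c / det3 a b c) (det3 a p c / det3 a b c) (det3 a b p / det3 a b c),
      ⟨?_, ?_, ?_⟩, ?_⟩
    · rw [pt_0, abs_div, div_le_iff₀ hD]; linarith [hle p hp b hb c hc]
    · rw [pt_1, abs_div, div_le_iff₀ hD]; linarith [hle a ha p hp c hc]
    · rw [pt_2, abs_div, div_le_iff₀ hD]; linarith [hle a ha b hb p hp]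
    · apply smul_right_injective V hD'
      simp only [colMap, LinearMap.coe_mk, AddHom.coe_mk, pt_0, pt_1, pt_2, smul_add, smul_smul,
        mul_div_cancel₀ _ hD']
      exact (cramer3 a b c p).symm
  refine (measure_mono hsub).trans ?_
  rw [Measure.addHaar_image_linearMap, det_colMap, volume_box (by norm_num),
    ← ENNReal.ofReal_mul hD.le]
  apply le_of_eq; congr 1; ring

lemma box_sub_Om {α : ℝ} (hα : 0 < α) : box (1 / 4 * (1 / α)) (1 / 4) ⊆ Om α := by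
  rintro p ⟨h0, h1, h2⟩
  have : α * |p 0| ≤ 1 / 4 := by
    calc α * |p 0| ≤ α * (1 / 4 * (1 / α)) := by gcongr
      _ = 1 / 4 := by field_simp
  exact ⟨by linarith, by unfold hh dl; linarith⟩

theorem cone_tube {α c : ℝ} (hα : 0 < α) (hc : 0 < c) (Γ : ConvexCone ℝ V)
    (hΓ : ENNReal.ofReal c * volume (Om α) ≤ volume (Om α ∩ Γ)) :
    ∃ x0 m m' : ℝ, x0 ≠ 0 ∧ |m| ≤ 6 * α / (c / 6144) ∧ |m'| ≤ 6 * α / (c / 6144) ∧
      ∀ p : V, 0 < p 0 / x0 → |p 1 - m * p 0| ≤ α * (c / 6144) / 4 * |p 0| →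
        |p 2 - m' * p 0| ≤ α * (c / 6144) / 4 * |p 0| → p ∈ Γ := by
  obtain ⟨ρ, hρe⟩ : ∃ ρ, ρ = c / 6144 := ⟨_, rfl⟩
  rw [← hρe]
  have hρ : 0 < ρ := by rw [hρe]; positivity
  obtain ⟨X, hX⟩ : ∃ X, X = 1 / α := ⟨_, rfl⟩
  have hX0 : 0 < X := by rw [hX]; positivity
  have hXα : α * X = 1 := by rw [hX]; field_simp
  obtain ⟨t, hte⟩ : ∃ t, t = min ρ 1 := ⟨_, rfl⟩
  have ht : 0 < t := by rw [hte]; exact lt_min hρ one_pos
  have ht1 : t ≤ 1 := by rw [hte]; exact min_le_right _ _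
  have ht2 : t ≤ ρ := by rw [hte]; exact min_le_left _ _
  have hOm : Om α ⊆ box (1 * X) 1 := by
    intro p hp
    obtain ⟨h1, h2, h3⟩ := Om_box hp
    refine ⟨?_, h2, h3⟩
    rw [hX, one_mul, le_div_iff₀ hα]; linarith
  have hS : (Om α ∩ Γ) ∪ box (t * X) t ⊆ box (1 * X) 1 := by
    refine union_subset (inter_subset_left.trans hOm) ?_
    rintro p ⟨h0, h1, h2⟩
    exact ⟨h0.trans (by gcongr), h1.trans ht1, h2.trans ht1⟩
  obtain ⟨a, ha, b, hb, d, hd, hv⟩ := exists_triple hS ⟨pt (t * X) 0 0,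
    Or.inr ⟨by simp [abs_of_pos ht, abs_of_pos hX0], by simp [ht.le], by simp [ht.le]⟩, pt 0 t 0,
    Or.inr ⟨by simp; positivity, by simp [abs_of_pos ht], by simp [ht.le]⟩, pt 0 0 t,
    Or.inr ⟨by simp; positivity, by simp [ht.le], by simp [abs_of_pos ht]⟩,
    by simp [det3, ht.ne', hX0.ne']⟩
  have hD : 12 * (ρ * X) ≤ |det3 a b d| := by
    have h1 : ENNReal.ofReal c * volume (box (1 / 4 * (1 / α)) (1 / 4)) ≤
        ENNReal.ofReal (64 * |det3 a b d|) :=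
      (mul_le_mul_right (measure_mono (box_sub_Om hα)) _).trans
        (hΓ.trans ((measure_mono subset_union_left).trans hv))
    rw [volume_box (by norm_num), ← ENNReal.ofReal_mul hc.le,
      ENNReal.ofReal_le_ofReal_iff (by positivity), ← hX] at h1
    rw [hρe]; linarith
  have hρX : 0 < ρ * X := by positivity
  have htX : t * X ≤ ρ * X := by gcongr
  have ha1 := hS ha
  have hb1 := hS hb
  have hd1 := hS hd
  have haΓ : a ∈ Γ := by
    rcases ha with h | h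
    · exact h.2
    · have := det3_bound h hb1 hd1; linarith
  have hbΓ : b ∈ Γ := by
    rcases hb with h | h
    · exact h.2
    · have := det3_bound ha1 h hd1; linarith
  have hdΓ : d ∈ Γ := by
    rcases hd with h | h
    · exact h.2
    · have := det3_bound ha1 hb1 h; linarith
  have hDpos : 0 < |det3 a b d| := by linarith
  have hD' : det3 a b d ≠ 0 := abs_pos.1 hDpos
  have hρ1 : ρ ≤ 1 / 2 := by
    have := det3_bound ha1 hb1 hd1
    have h2 : ρ * X ≤ 1 / 2 * X := by linarith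
    exact le_of_mul_le_mul_right h2 hX0
  have hball : ∀ h ∈ box (ρ * X) ρ, a + b + d + h ∈ Γ := by
    intro h hh
    have pos : ∀ e : ℝ, |e| ≤ 6 * (ρ * X) → 0 < 1 + e / det3 a b d := by
      intro e he
      have : |e / det3 a b d| < 1 := by rw [abs_div, div_lt_one hDpos]; linarith
      linarith [(abs_lt.1 this).1]
    have e : a + b + d + h = (1 + det3 h b d / det3 a b d) • a + (1 + det3 a h d / det3 a b d) • b
        + (1 + det3 a b h / det3 a b d) • d := by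
      apply smul_right_injective V hD'
      simp only [smul_add, smul_smul, mul_add, mul_div_cancel₀ _ hD', mul_one, add_smul]
      rw [cramer3 a b d h]; abel
    rw [e]
    refine Γ.add_mem (Γ.add_mem (Γ.smul_mem (pos _ ?_) haΓ) (Γ.smul_mem (pos _ ?_) hbΓ))
      (Γ.smul_mem (pos _ ?_) hdΓ)
    · have := det3_bound hh hb1 hd1; linarith
    · have := det3_bound ha1 hh hd1; linarith
    · have := det3_bound ha1 hb1 hh; linarith
  obtain ⟨q, hq⟩ : ∃ q, q = a + b + d := ⟨_, rfl⟩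
  rw [← hq] at hball
  have tri : ∀ i, |q i| ≤ |a i| + |b i| + |d i| := fun i => by
    rw [hq]; simp only [PiLp.add_apply]; exact abs_add_three _ _ _
  have hq0 : |q 0| ≤ 3 * X := by linarith [tri 0, ha1.1, hb1.1, hd1.1]
  have hq1 : |q 1| ≤ 3 := by linarith [tri 1, ha1.2.1, hb1.2.1, hd1.2.1]
  have hq2 : |q 2| ≤ 3 := by linarith [tri 2, ha1.2.2, hb1.2.2, hd1.2.2]
  obtain ⟨h0, hh0, hx1⟩ : ∃ h0 : ℝ, |h0| ≤ ρ * X ∧ ρ * X ≤ |q 0 + h0| := by
    rcases le_total 0 (q 0) with h | h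
    · exact ⟨ρ * X, (abs_of_pos hρX).le, le_trans (by linarith) (le_abs_self _)⟩
    · exact ⟨-(ρ * X), by rw [abs_neg, abs_of_pos hρX], le_trans (by linarith) (neg_le_abs _)⟩
  obtain ⟨x0, hx0⟩ : ∃ x0, x0 = q 0 + h0 := ⟨_, rfl⟩
  rw [← hx0] at hx1
  have hx2 : |x0| ≤ 4 * X := by
    rw [hx0]
    have := abs_add_le (q 0) h0
    have : ρ * X ≤ 1 * X := by gcongr; linarith
    linarith
  have hx3 : 0 < |x0| := by linarith
  have hx4 : x0 ≠ 0 := abs_pos.1 hx3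
  have slope : ∀ y : ℝ, |y| ≤ 3 → |y / x0| ≤ 6 * α / ρ := by
    intro y hy
    rw [abs_div, div_le_div_iff₀ hx3 hρ]
    have h1 : 6 * α * (ρ * X) ≤ 6 * α * |x0| := by gcongr
    have h2 : 6 * α * (ρ * X) = 6 * ρ := by linear_combination 6 * ρ * hXα
    have h3 : |y| * ρ ≤ 3 * ρ := by gcongr
    linarith
  refine ⟨x0, q 1 / x0, q 2 / x0, hx4, slope _ hq1, slope _ hq2, fun p hp h1 h2 => ?_⟩
  obtain ⟨l, hl⟩ : ∃ l, l = p 0 / x0 := ⟨_, rfl⟩
  rw [← hl] at hp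
  have hp0 : p 0 = l * x0 := by rw [hl]; field_simp
  have near : ∀ y z : ℝ, |y - z / x0 * p 0| ≤ α * ρ / 4 * |p 0| → |y / l - z| ≤ ρ := by
    intro y z h
    have e1 : y / l - z = (y - z / x0 * p 0) / l := by rw [hp0]; field_simp
    rw [e1, abs_div, abs_of_pos hp, div_le_iff₀ hp]
    refine h.trans ?_
    rw [hp0, abs_mul, abs_of_pos hp]
    calc α * ρ / 4 * (l * |x0|) ≤ α * ρ / 4 * (l * (4 * X)) := by gcongr
      _ = ρ * l := by linear_combination ρ * l * hXα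
  have hmem := hball (pt h0 (p 1 / l - q 1) (p 2 / l - q 2)) ⟨hh0, near _ _ h1, near _ _ h2⟩
  have e : p = l • (q + pt h0 (p 1 / l - q 1) (p 2 / l - q 2)) := by
    ext i; fin_cases i
    · simp [hp0, hx0, mul_add]
    · simp; field_simp; ring
    · simp; field_simp; ring
  rw [e]
  exact Γ.smul_mem hp hmem

end Pool.Agent.H55Z.Iso
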