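import Mathlib
import Pool.Agent.H55Z.Iso.Trans

set_option autoImplicit false

namespace Pool.Agent.H55Z.Iso

open MeasureTheory Set Filter Topology Metric
open scoped ENNReal symmDiff

def cube (δ : ℝ) (j : Fin 3 → ℤ) : Set V := {x | ∀ i, ⌊x i / δ⌋ = j i}

lemma cube_eq {δ : ℝ} (hδ : 0 < δ) (j : Fin 3 → ℤ) :
    cube δ j = (WithLp.ofLp) ⁻¹' (Set.pi univ fun i => Ico (j i * δ) ((j i + 1) * δ)) := by
  ext x
  simp only [cube, mem_ofPred_eq, mem_preimage, Set.mem_pi, mem_univ, true_imp_iff, mem_Ico,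
    Int.floor_eq_iff]
  refine forall_congr' fun i => ?_
  rw [le_div_iff₀ hδ, div_lt_iff₀ hδ]

lemma measurableSet_cube {δ : ℝ} (hδ : 0 < δ) (j : Fin 3 → ℤ) : MeasurableSet (cube δ j) := by
  rw [cube_eq hδ]
  exact (PiLp.volume_preserving_ofLp (Fin 3)).measurable
    (MeasurableSet.univ_pi fun _ => measurableSet_Ico)

lemma volume_cube {δ : ℝ} (hδ : 0 < δ) (j : Fin 3 → ℤ) :
    volume (cube δ j) = ENNReal.ofReal (δ ^ 3) := by
  rw [cube_eq hδ, (PiLp.volume_preserving_ofLp (Fin 3)).measure_preimage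
    (MeasurableSet.univ_pi fun _ => measurableSet_Ico).nullMeasurableSet, Real.volume_pi_Ico]
  have : ∀ i : Fin 3, ((j i : ℝ) + 1) * δ - j i * δ = δ := fun i => by ring
  simp only [this, Finset.prod_const, Finset.card_univ, Fintype.card_fin]
  rw [ENNReal.ofReal_pow hδ.le]

lemma cube_dist {δ : ℝ} (hδ : 0 < δ) {j : Fin 3 → ℤ} {x y : V} (hx : x ∈ cube δ j)
    (hy : y ∈ cube δ j) : dist x y ≤ 2 * δ := by
  rw [cube_eq hδ] at hx hy
  have h : ∀ i, (x i - y i) ^ 2 ≤ δ ^ 2 := by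
    intro i
    have h1 := hx i (mem_univ _)
    have h2 := hy i (mem_univ _)
    simp only [mem_Ico] at h1 h2
    apply sq_le_sq'
    · nlinarith [h1.1, h2.2]
    · nlinarith [h1.2, h2.1]
  rw [EuclideanSpace.dist_eq]
  simp only [Real.dist_eq, sq_abs, Fin.sum_univ_three]
  apply Real.sqrt_le_iff.mpr
  refine ⟨by positivity, ?_⟩
  nlinarith [h 0, h 1, h 2]

lemma finite_cubes {δ : ℝ} (hδ : 0 < δ) {K : Set V} (hK : IsCompact K) :
    {j : Fin 3 → ℤ | (cube δ j ∩ K).Nonempty}.Finite := by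
  obtain ⟨R, hR⟩ := hK.isBounded.subset_closedBall 0
  refine (Set.Finite.pi' (t := fun _ : Fin 3 => Icc (⌊-R / δ⌋) (⌊R / δ⌋))
    (fun _ => finite_Icc _ _)).subset ?_
  rintro j ⟨x, hx, hxK⟩ i
  have h1 := hR hxK
  rw [mem_closedBall, dist_zero_right] at h1
  have h2 : |x i| ≤ R := (PiLp.norm_apply_le x i).trans h1
  rw [← hx i]
  rw [abs_le] at h2
  constructor
  · apply Int.floor_le_floor; gcongr; exact h2.1
  · apply Int.floor_le_floor; gcongr; exact h2.2

lemma exists_net {Ω : Set V} (hΩ : IsOpen Ω) (hfin : volume Ω ≠ ⊤) {P : ℝ} (hP0 : 0 ≤ P)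
    {η : ℝ} (hη : 0 < η) :
    ∃ N : Set (Set V), N.Finite ∧ (∀ B ∈ N, MeasurableSet B) ∧
      ∀ A, MeasurableSet A → A ⊆ Ω → (∀ φ, Test Ω φ → ∫ x in A, dv φ x ≤ P) →
        ∃ B ∈ N, volume (A ∆ B) ≤ ENNReal.ofReal η := by
  classical
  obtain ⟨K, hKΩ, hK, hKv⟩ := hΩ.measurableSet.exists_isCompact_sdiff_lt hfin
    (ε := ENNReal.ofReal (η / 2)) (by simpa using hη)
  obtain ⟨r, hr, hrK⟩ := hK.exists_cthickening_subset_open hΩ hKΩ
  set v := volume.real (closedBall (0 : V) 1) with hv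
  have hv0 : 0 ≤ v := measureReal_nonneg
  obtain ⟨δ, hδ, hδr, hδη⟩ : ∃ δ : ℝ, 0 < δ ∧ 8 * δ ≤ r ∧ 32 * v * δ * P ≤ η / 2 := by
    refine ⟨min (r / 8) (η / (64 * (v * P + 1))), by positivity, ?_, ?_⟩
    · have := min_le_left (r / 8) (η / (64 * (v * P + 1))); linarith
    · have h1 := min_le_right (r / 8) (η / (64 * (v * P + 1)))
      have h2 : 0 ≤ v * P := by positivity
      calc 32 * v * min (r / 8) (η / (64 * (v * P + 1))) * P
          = 32 * (v * P) * min (r / 8) (η / (64 * (v * P + 1))) := by ring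
        _ ≤ 32 * (v * P + 1) * (η / (64 * (v * P + 1))) := by gcongr; linarith
        _ = η / 2 := by field_simp; ring
  set J : Finset (Fin 3 → ℤ) := (finite_cubes hδ hK).toFinset with hJ
  have hJmem : ∀ j, j ∈ J ↔ (cube δ j ∩ K).Nonempty := fun j => by simp [hJ]
  refine ⟨(fun S : Finset (Fin 3 → ℤ) => ⋃ j ∈ S, cube δ j) '' (J.powerset : Set _),
    (Finset.finite_toSet _).image _, ?_, ?_⟩
  · rintro _ ⟨S, -, rfl⟩
    exact S.measurableSet_biUnion fun j _ => measurableSet_cube hδ j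
  intro A hA hAΩ hP
  set S := J.filter fun j => volume (cube δ j \ A) ≤ volume (cube δ j ∩ A) with hS
  refine ⟨⋃ j ∈ S, cube δ j, ⟨S, Finset.mem_coe.2 (Finset.mem_powerset.2 (Finset.filter_subset _ _)), rfl⟩, ?_⟩
  set bad : (Fin 3 → ℤ) → Set V := fun j => if j ∈ S then cube δ j \ A else cube δ j ∩ A
    with hbad
  have hsub : A ∆ (⋃ j ∈ S, cube δ j) ⊆ (Ω \ K) ∪ ⋃ j ∈ J, bad j := by
    rintro x (⟨hx1, hx2⟩ | ⟨hx1, hx2⟩)
    · by_cases hxK : x ∈ K
      · right
        have hxc : x ∈ cube δ (fun i => ⌊x i / δ⌋) := fun i => rfl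
        have hj : (fun i => ⌊x i / δ⌋) ∈ J := (hJmem _).2 ⟨x, hxc, hxK⟩
        have hjS : (fun i => ⌊x i / δ⌋) ∉ S := fun h => hx2 (mem_biUnion h hxc)
        refine mem_biUnion hj ?_
        simp only [hbad, if_neg hjS]
        exact ⟨hxc, hx1⟩
      · exact Or.inl ⟨hAΩ hx1, hxK⟩
    · right
      obtain ⟨j, hj, hxj⟩ := mem_iUnion₂.1 hx1
      refine mem_biUnion (Finset.mem_filter.1 hj).1 ?_
      simp only [hbad, if_pos hj]
      exact ⟨hxj, hx2⟩
  have hball := ball_est hA hP hP0 (W := thickening (r / 2) K) (K₀ := cthickening (r / 2) K)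
    isOpen_thickening hK.cthickening (thickening_subset_cthickening _ _) (ε := 2 * δ) (by
      intro x hx y hy
      apply hrK
      have h1 : closedBall x (2 * δ) ⊆ cthickening (2 * δ) (cthickening (r / 2) K) :=
        closedBall_subset_cthickening hx _
      have h2 := cthickening_cthickening_subset (by positivity : 0 ≤ 2 * δ)
        (by positivity : 0 ≤ r / 2) K
      exact cthickening_mono (by linarith) K (h2 (h1 hy)))
  have hkey : ∀ j ∈ J, volume (bad j) * ENNReal.ofReal (δ ^ 3) ≤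
      2 * ∫⁻ x in A ∩ cube δ j, volume (closedBall x (2 * δ) \ A) := by
    intro j _
    have hab : volume (cube δ j ∩ A) + volume (cube δ j \ A) = ENNReal.ofReal (δ ^ 3) := by
      rw [measure_inter_add_sdiff _ hA, volume_cube hδ]
    have h1 : volume (cube δ j \ A) * volume (cube δ j ∩ A) ≤
        ∫⁻ x in A ∩ cube δ j, volume (closedBall x (2 * δ) \ A) := by
      rw [inter_comm (cube δ j) A, ← setLIntegral_const]
      refine setLIntegral_mono' (hA.inter (measurableSet_cube hδ j)) fun x hx => ?_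
      refine measure_mono fun y hy => ⟨?_, hy.2⟩
      exact cube_dist hδ hy.1 hx.2
    refine le_trans ?_ (mul_le_mul_right h1 2)
    rw [← hab]
    by_cases hj : j ∈ S
    · simp only [hbad, if_pos hj]
      have := (Finset.mem_filter.1 hj).2
      rw [mul_add, two_mul]
      gcongr
    · simp only [hbad, if_neg hj]
      have : volume (cube δ j ∩ A) ≤ volume (cube δ j \ A) := by
        by_contra h
        exact hj (Finset.mem_filter.2 ⟨‹_›, (not_le.1 h).le⟩)
      rw [mul_add, two_mul, mul_comm (volume (cube δ j \ A))]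
      gcongr
  have hsum : ∑ j ∈ J, ∫⁻ x in A ∩ cube δ j, volume (closedBall x (2 * δ) \ A) ≤
      ∫⁻ x in A ∩ thickening (r / 2) K, volume (closedBall x (2 * δ) \ A) := by
    rw [← lintegral_biUnion_finset]
    · refine lintegral_mono_set ?_
      intro x hx
      obtain ⟨j, hj, hxj⟩ := mem_iUnion₂.1 hx
      obtain ⟨y, hy, hyK⟩ := (hJmem j).1 hj
      refine ⟨hxj.1, mem_thickening_iff.2 ⟨y, hyK, ?_⟩⟩
      have := cube_dist hδ hxj.2 hy
      linarith
    · intro j _ k _ hjk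
      refine Set.disjoint_left.2 fun x hx hx' => hjk ?_
      funext i
      rw [← hx.2 i, ← hx'.2 i]
    · exact fun j _ => hA.inter (measurableSet_cube hδ j)
  have hvol : volume (closedBall (0 : V) (2 * δ)) = ENNReal.ofReal ((2 * δ) ^ 3 * v) := by
    rw [Measure.addHaar_closedBall' _ _ (by positivity), ENNReal.ofReal_mul (by positivity), hv,
      ofReal_measureReal measure_closedBall_lt_top.ne]
    simp
  have htot : (∑ j ∈ J, volume (bad j)) * ENNReal.ofReal (δ ^ 3) ≤
      ENNReal.ofReal (η / 2) * ENNReal.ofReal (δ ^ 3) := by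
    rw [Finset.sum_mul]
    refine (Finset.sum_le_sum hkey).trans ?_
    rw [← Finset.mul_sum]
    refine (mul_le_mul_right (hsum.trans hball) 2).trans ?_
    rw [hvol, ← ENNReal.ofReal_mul (by positivity), ← ENNReal.ofReal_mul (by positivity),
      ← ENNReal.ofReal_ofNat 2, ← ENNReal.ofReal_mul (by positivity)]
    apply ENNReal.ofReal_le_ofReal
    have : 0 < δ ^ 3 := by positivity
    nlinarith
  have htot' : ∑ j ∈ J, volume (bad j) ≤ ENNReal.ofReal (η / 2) :=
    (ENNReal.mul_le_mul_iff_left (by simpa using pow_pos hδ 3) ENNReal.ofReal_ne_top).1 htot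
  calc volume (A ∆ (⋃ j ∈ S, cube δ j)) ≤ volume ((Ω \ K) ∪ ⋃ j ∈ J, bad j) := measure_mono hsub
    _ ≤ volume (Ω \ K) + ∑ j ∈ J, volume (bad j) :=
        (measure_union_le _ _).trans (add_le_add le_rfl (measure_biUnion_finset_le _ _))
    _ ≤ ENNReal.ofReal (η / 2) + ENNReal.ofReal (η / 2) := add_le_add hKv.le htot'
    _ = ENNReal.ofReal η := by
        rw [← ENNReal.ofReal_add (by positivity) (by positivity)]; congr 1; ring

/-- compactness along an ultrafilter -/
lemma exists_limit {Ω : Set V} (hΩ : IsOpen Ω) (hfin : volume Ω ≠ ⊤) {P : ℝ} (hP0 : 0 ≤ P)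
    (A : ℕ → Set V) (hA : ∀ k, MeasurableSet (A k)) (hAΩ : ∀ k, A k ⊆ Ω)
    (hP : ∀ k φ, Test Ω φ → ∫ x in A k, dv φ x ≤ P) (U : Ultrafilter ℕ) :
    ∃ E, MeasurableSet E ∧ E ⊆ Ω ∧ Tendsto (fun k => volume (A k ∆ E)) U (𝓝 0) := by
  have h1 : ∀ m : ℕ, ∃ B, MeasurableSet B ∧
      {k | volume (A k ∆ B) ≤ ENNReal.ofReal ((1 / 2) ^ m)} ∈ U := by
    intro m
    obtain ⟨N, hN, hNm, hNA⟩ := exists_net hΩ hfin hP0 (η := (1 / 2) ^ m) (by positivity)
    have : (⋃ B ∈ N, {k | volume (A k ∆ B) ≤ ENNReal.ofReal ((1 / 2) ^ m)}) ∈ U := by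
      refine Filter.univ_mem' fun k => ?_
      obtain ⟨B, hB, h⟩ := hNA (A k) (hA k) (hAΩ k) (hP k)
      exact mem_biUnion hB h
    obtain ⟨B, hB, h⟩ := (Ultrafilter.finite_biUnion_mem_iff hN).1 this
    exact ⟨B, hNm B hB, h⟩
  choose B hBm hB using h1
  have hstep : ∀ m, volume (B m ∆ B (m + 1)) ≤ ENNReal.ofReal (2 * (1 / 2) ^ m) := by
    intro m
    obtain ⟨k, hk1, hk2⟩ := Ultrafilter.nonempty_of_mem (inter_mem (hB m) (hB (m + 1)))
    simp only [mem_ofPred_eq] at hk1 hk2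
    calc volume (B m ∆ B (m + 1)) ≤ volume (B m ∆ A k) + volume (A k ∆ B (m + 1)) :=
          measure_symmDiff_le _ _ _
      _ ≤ ENNReal.ofReal ((1 / 2) ^ m) + ENNReal.ofReal ((1 / 2) ^ (m + 1)) := by
          rw [symmDiff_comm (B m)]; exact add_le_add hk1 hk2
      _ ≤ _ := by
          rw [← ENNReal.ofReal_add (by positivity) (by positivity)]
          apply ENNReal.ofReal_le_ofReal
          have : (0 : ℝ) < (1 / 2) ^ m := by positivity
          rw [pow_succ]; linarith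
  set E₀ : Set V := ⋂ n, ⋃ m, B (m + n) with hE₀
  have hE₀m : MeasurableSet E₀ := MeasurableSet.iInter fun n => MeasurableSet.iUnion fun m => hBm _
  have hclose : ∀ m, volume (B m ∆ E₀) ≤ ENNReal.ofReal (4 * (1 / 2) ^ m) := by
    intro m
    have hsub : B m ∆ E₀ ⊆ ⋃ j, B (j + m) ∆ B (j + m + 1) := by
      intro x hx
      by_contra hcon
      simp only [mem_iUnion, not_exists] at hcon
      have hiff : ∀ j, x ∈ B (j + m) ↔ x ∈ B m := by
        intro j
        induction j with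
        | zero => simp
        | succ j ih =>
          rw [← ih]
          have := hcon j
          rw [mem_symmDiff] at this
          have e : j + 1 + m = j + m + 1 := by ring
          rw [e]; tauto
      have hE : x ∈ E₀ ↔ x ∈ B m := by
        simp only [hE₀, mem_iInter, mem_iUnion]
        constructor
        · intro h
          obtain ⟨j, hj⟩ := h m
          exact (hiff j).1 hj
        · intro h n
          exact ⟨m, by rw [add_comm]; exact (hiff n).2 h⟩
      rw [mem_symmDiff] at hx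
      tauto
    calc volume (B m ∆ E₀) ≤ ∑' j, volume (B (j + m) ∆ B (j + m + 1)) :=
          (measure_mono hsub).trans (measure_iUnion_le _)
      _ ≤ ∑' j : ℕ, ENNReal.ofReal (2 * (1 / 2) ^ (j + m)) :=
          ENNReal.tsum_le_tsum fun j => hstep _
      _ = ENNReal.ofReal (∑' j : ℕ, 2 * (1 / 2) ^ (j + m)) := by
          rw [ENNReal.ofReal_tsum_of_nonneg (fun j => by positivity)]
          simp_rw [pow_add, ← mul_assoc]
          exact (summable_geometric_two.mul_left 2).mul_right _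
      _ = _ := by
          congr 1
          simp_rw [pow_add, ← mul_assoc]
          rw [tsum_mul_right, tsum_mul_left, tsum_geometric_two]; ring
  refine ⟨E₀ ∩ Ω, hE₀m.inter hΩ.measurableSet, inter_subset_right, ?_⟩
  rw [ENNReal.tendsto_nhds_zero]
  intro ε hε
  obtain ⟨m, hm⟩ : ∃ m : ℕ, ENNReal.ofReal (5 * (1 / 2) ^ m) ≤ ε := by
    have h1 : Tendsto (fun m : ℕ => ENNReal.ofReal (5 * (1 / 2 : ℝ) ^ m)) atTop
        (𝓝 (ENNReal.ofReal (5 * 0))) :=
      ENNReal.tendsto_ofReal ((tendsto_pow_atTop_nhds_zero_of_lt_one (by norm_num)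
        (by norm_num)).const_mul 5)
    simp only [mul_zero, ENNReal.ofReal_zero] at h1
    exact ((ENNReal.tendsto_nhds_zero.1 h1) ε hε).exists
  filter_upwards [hB m] with k hk
  refine le_trans ?_ hm
  have hsub : A k ∆ (E₀ ∩ Ω) ⊆ A k ∆ E₀ := by
    rintro x (⟨h1, h2⟩ | ⟨h1, h2⟩)
    · exact Or.inl ⟨h1, fun h => h2 ⟨h, hAΩ k h1⟩⟩
    · exact Or.inr ⟨h1.1, h2⟩
  calc volume (A k ∆ (E₀ ∩ Ω)) ≤ volume (A k ∆ B m) + volume (B m ∆ E₀) :=
        (measure_mono hsub).trans (measure_symmDiff_le _ _ _)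
    _ ≤ ENNReal.ofReal ((1 / 2) ^ m) + ENNReal.ofReal (4 * (1 / 2) ^ m) := add_le_add hk (hclose m)
    _ = _ := by
        rw [← ENNReal.ofReal_add (by positivity) (by positivity)]; congr 1; ring

lemma setIntegral_sub_le {g : V → ℝ} (hg : Integrable g) {C : ℝ} (hC : ∀ x, |g x| ≤ C)
    {A E : Set V} (hA : MeasurableSet A) (hE : MeasurableSet E) (hfin : volume (A ∆ E) ≠ ⊤) :
    |(∫ x in A, g x) - ∫ x in E, g x| ≤ C * volume.real (A ∆ E) := by
  rw [← integral_indicator hA, ← integral_indicator hE,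
    ← integral_sub (hg.indicator hA) (hg.indicator hE)]
  have hm : MeasurableSet (A ∆ E) := hA.symmDiff hE
  calc _ ≤ ∫ x, |A.indicator g x - E.indicator g x| := abs_integral_le_integral_abs
    _ ≤ ∫ x, (A ∆ E).indicator (fun _ => C) x := by
        refine integral_mono ((hg.indicator hA).sub (hg.indicator hE)).abs
          ((integrable_indicator_iff hm).2 (integrableOn_const hfin)) fun x => ?_
        have hC0 : 0 ≤ C := (abs_nonneg _).trans (hC x)
        by_cases h1 : x ∈ A <;> by_cases h2 : x ∈ E <;>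
          simp [indicator, mem_symmDiff, h1, h2, hC x]
    _ = C * volume.real (A ∆ E) := by
        rw [integral_indicator hm, setIntegral_const, smul_eq_mul, mul_comm]

/-- relative perimeter -/
noncomputable def Per (Ω A : Set V) : ℝ≥0∞ :=
  ⨆ φ : {φ // Test Ω φ}, ENNReal.ofReal (∫ x in A, dv φ.1 x)

theorem exists_min {Ω : Set V} (hΩ : IsOpen Ω) (hfin : volume Ω ≠ ⊤) {F₀ : Set V}
    (hF : MeasurableSet F₀) (hFΩ : F₀ ⊆ Ω) (hFP : Per Ω F₀ ≠ ⊤) :
    ∃ E, MeasurableSet E ∧ E ⊆ Ω ∧ volume E = volume F₀ ∧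
      ∀ F, MeasurableSet F → F ⊆ Ω → volume F = volume F₀ → Per Ω E ≤ Per Ω F := by
  let C := {F : Set V // MeasurableSet F ∧ F ⊆ Ω ∧ volume F = volume F₀}
  have : Nonempty C := ⟨⟨F₀, hF, hFΩ, rfl⟩⟩
  set p : ℝ≥0∞ := ⨅ F : C, Per Ω F.1 with hp
  have hpF : p ≤ Per Ω F₀ := iInf_le (fun F : C => Per Ω F.1) ⟨F₀, hF, hFΩ, rfl⟩
  have hpt : p ≠ ⊤ := ne_top_of_le_ne_top hFP hpF
  have h1 : ∀ k : ℕ, ∃ F : C, Per Ω F.1 < p + ENNReal.ofReal (1 / (k + 1)) := by
    intro k
    apply iInf_lt_iff.1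
    exact ENNReal.lt_add_right hpt (by simp; positivity)
  choose A hA using h1
  have hAP : ∀ k φ, Test Ω φ → ∫ x in (A k).1, dv φ x ≤ p.toReal + 1 / (k + 1) := by
    intro k φ hφ
    have h2 : ENNReal.ofReal (∫ x in (A k).1, dv φ x) ≤ Per Ω (A k).1 :=
      le_iSup (fun φ : {φ // Test Ω φ} => ENNReal.ofReal (∫ x in (A k).1, dv φ.1 x)) ⟨φ, hφ⟩
    have h3 := h2.trans (hA k).le
    rw [← ENNReal.ofReal_toReal hpt, ← ENNReal.ofReal_add ENNReal.toReal_nonneg (by positivity),
      ENNReal.ofReal_le_ofReal_iff (by positivity)] at h3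
    exact h3
  obtain ⟨E, hEm, hEΩ, hlim⟩ := exists_limit hΩ hfin (P := p.toReal + 1) (by positivity)
    (fun k => (A k).1) (fun k => (A k).2.1) (fun k => (A k).2.2.1) (fun k φ hφ => by
      refine (hAP k φ hφ).trans ?_
      have : 1 / ((k : ℝ) + 1) ≤ 1 := by
        rw [div_le_one (by positivity)]; have : (0 : ℝ) ≤ k := by positivity
        linarith
      linarith) (hyperfilter ℕ)
  have hsd : ∀ k, volume ((A k).1 ∆ E) ≠ ⊤ := fun k =>
    ne_top_of_le_ne_top hfin (measure_mono (by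
      rintro x (h | h)
      · exact (A k).2.2.1 h.1
      · exact hEΩ h.1))
  have hlimR : Tendsto (fun k => volume.real ((A k).1 ∆ E)) (hyperfilter ℕ) (𝓝 0) := by
    have := (ENNReal.tendsto_toReal ENNReal.zero_ne_top).comp hlim
    rw [ENNReal.toReal_zero] at this
    exact this
  refine ⟨E, hEm, hEΩ, ?_, ?_⟩
  · apply le_antisymm
    · have h2 : ∀ k, volume E ≤ volume F₀ + volume ((A k).1 ∆ E) := by
        intro k
        have e := (A k).2.2.2
        refine le_trans (le_trans (measure_mono ?_) (measure_union_le (A k).1 _))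
          (add_le_add e.le le_rfl)
        intro x hx
        by_cases h : x ∈ (A k).1
        · exact Or.inl h
        · exact Or.inr (Or.inr ⟨hx, h⟩)
      have h3 := (tendsto_const_nhds (x := volume F₀)).add hlim
      rw [add_zero] at h3
      exact ge_of_tendsto' h3 h2
    · have h2 : ∀ k, volume F₀ ≤ volume E + volume ((A k).1 ∆ E) := by
        intro k
        have e := (A k).2.2.2
        refine le_trans e.ge (le_trans (measure_mono ?_) (measure_union_le _ _))
        intro x hx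
        by_cases h : x ∈ E
        · exact Or.inl h
        · exact Or.inr (Or.inl ⟨hx, h⟩)
      have h3 := (tendsto_const_nhds (x := volume E)).add hlim
      rw [add_zero] at h3
      exact ge_of_tendsto' h3 h2
  · intro F hFm hFΩ' hFv
    refine le_trans ?_ (iInf_le (fun F : C => Per Ω F.1) ⟨F, hFm, hFΩ', hFv⟩)
    refine iSup_le fun φ => ?_
    rw [← hp, ← ENNReal.ofReal_toReal hpt]
    apply ENNReal.ofReal_le_ofReal
    obtain ⟨M, hM⟩ := (continuous_dv φ.2.cd).bounded_above_of_compact_support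
      (hasCompactSupport_dv φ.2.cs)
    have h2 : ∀ k : ℕ, ∫ x in E, dv φ.1 x ≤
        p.toReal + 1 / ((k : ℝ) + 1) + M * volume.real ((A k).1 ∆ E) := by
      intro k
      have h3 := setIntegral_sub_le (integrable_dv φ.2.cd φ.2.cs) (C := M) hM (A k).2.1 hEm (hsd k)
      have h4 := hAP k φ.1 φ.2
      have := (abs_le.1 h3).1
      linarith
    have h5 : Tendsto (fun k : ℕ => p.toReal + 1 / ((k : ℝ) + 1) +
        M * volume.real ((A k).1 ∆ E)) (hyperfilter ℕ) (𝓝 (p.toReal + 0 + M * 0)) := by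
      refine (tendsto_const_nhds.add ?_).add (hlimR.const_mul M)
      exact tendsto_one_div_add_atTop_nhds_zero_nat.mono_left Nat.hyperfilter_le_atTop
    simp only [add_zero, mul_zero] at h5
    exact ge_of_tendsto' h5 h2

end Pool.Agent.H55Z.Iso
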