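import Mathlib
import Pool.Agent.H55Z.Iso.Cone
import Pool.Agent.H55Z.Iso.Exist

set_option autoImplicit false

namespace Pool.Agent.H55Z.Iso

open MeasureTheory Set Filter Topology Metric
open scoped ENNReal

/-- scaling of the last coordinate -/
noncomputable def sc (t : ℝ) : V →L[ℝ] V :=
  LinearMap.toContinuousLinearMap (colMap (ee 0) (ee 1) (t • ee 2))

lemma sc_0 (t : ℝ) (p : V) : sc t p 0 = p 0 := by simp [sc, colMap]
lemma sc_1 (t : ℝ) (p : V) : sc t p 1 = p 1 := by simp [sc, colMap]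
lemma sc_2 (t : ℝ) (p : V) : sc t p 2 = t * p 2 := by simp [sc, colMap, mul_comm]

lemma sc_sc {s t : ℝ} (h : s * t = 1) (p : V) : sc s (sc t p) = p := by
  ext i; fin_cases i
  · simp [sc_0]
  · simp [sc_1]
  · simp [sc_2, ← mul_assoc, h]

lemma det_sc (t : ℝ) : (sc t).det = t := by
  have : (sc t).det = LinearMap.det (colMap (ee 0) (ee 1) (t • ee 2)) := rfl
  rw [this, det_colMap]
  simp [det3]

lemma image_sc {s t : ℝ} (h : s * t = 1) (A : Set V) : sc s '' A = sc t ⁻¹' A := by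
  ext p
  constructor
  · rintro ⟨q, hq, rfl⟩
    simpa [sc_sc (mul_comm s t ▸ h)] using hq
  · intro hp
    exact ⟨_, hp, sc_sc h p⟩

lemma volume_sc {t : ℝ} (ht : 0 ≤ t) (A : Set V) :
    volume (sc t '' A) = ENNReal.ofReal t * volume A := by
  rw [Measure.addHaar_image_continuousLinearMap]
  congr 2
  exact (congrArg abs (det_sc t)).trans (abs_of_nonneg ht)

lemma integral_sc {s t : ℝ} (h : s * t = 1) (ht : 0 ≤ t) {A : Set V} (hA : MeasurableSet A)
    (g : V → ℝ) : ∫ p in sc t '' A, g p = t * ∫ p in A, g (sc t p) := by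
  rw [integral_image_eq_integral_abs_det_fderiv_smul volume hA
    (fun x _ => (sc t).hasFDerivAt.hasFDerivWithinAt)
    (Function.LeftInverse.injective (sc_sc h)).injOn, ← integral_const_mul]
  simp only [det_sc, abs_of_nonneg ht, smul_eq_mul]

noncomputable def cj (θ s t : ℝ) (φ : V → V) (p : V) : V := θ • sc s (φ (sc t p))

lemma cj_cd {φ : V → V} (h : ContDiff ℝ 1 φ) (θ s t : ℝ) : ContDiff ℝ 1 (cj θ s t φ) :=
  ((sc s).contDiff.comp (h.comp (sc t).contDiff)).const_smul θ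

lemma cj_supp (φ : V → V) (θ s t : ℝ) : tsupport (cj θ s t φ) ⊆ sc t ⁻¹' tsupport φ := by
  refine closure_minimal (fun p hp => ?_) ((isClosed_tsupport φ).preimage (sc t).continuous)
  by_contra h
  apply hp
  simp [cj, image_eq_zero_of_notMem_tsupport h]

lemma cj_cs {φ : V → V} (h : HasCompactSupport φ) (θ : ℝ) {s t : ℝ} (hst : s * t = 1) :
    HasCompactSupport (cj θ s t φ) := by
  refine IsCompact.of_isClosed_subset ?_ (isClosed_tsupport _) (cj_supp φ θ s t)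
  rw [← image_sc hst]
  exact h.isCompact.image (sc s).continuous

lemma dv_cj {φ : V → V} (h : ContDiff ℝ 1 φ) (θ : ℝ) {s t : ℝ} (hst : s * t = 1) (p : V) :
    dv (cj θ s t φ) p = θ * dv φ (sc t p) := by
  have h1 := (h.differentiable (by norm_num) (sc t p)).hasFDerivAt
  have h2 : HasFDerivAt (cj θ s t φ) (θ • (sc s).comp ((fderiv ℝ φ (sc t p)).comp (sc t))) p :=
    ((sc s).hasFDerivAt.comp p (h1.comp p (sc t).hasFDerivAt)).const_smul θ
  have e0 : sc t (ee 0) = ee 0 := by simp [sc, colMap]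
  have e1 : sc t (ee 1) = ee 1 := by simp [sc, colMap]
  have e2 : sc t (ee 2) = t • ee 2 := by simp [sc, colMap]
  rw [dv_eq, dv_eq, h2.fderiv, Fin.sum_univ_three, Fin.sum_univ_three]
  simp only [ContinuousLinearMap.smul_apply, ContinuousLinearMap.comp_apply, e0, e1, e2,
    PiLp.smul_apply, sc_0, sc_1, sc_2, map_smul, smul_eq_mul]
  linear_combination θ * (fderiv ℝ φ (sc t p) (ee 2)) 2 * hst

lemma convex_Om {α : ℝ} (hα : 0 < α) : Convex ℝ (Om α) := by
  intro p hp q hq a b ha hb hab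
  have t : ∀ i, |(a • p + b • q) i| ≤ a * |p i| + b * |q i| := by
    intro i
    simp only [PiLp.add_apply, PiLp.smul_apply, smul_eq_mul]
    refine (abs_add_le _ _).trans ?_
    rw [abs_mul, abs_mul, abs_of_nonneg ha, abs_of_nonneg hb]
  have key : ∀ u v M : ℝ, u < M → v < M → a * u + b * v < M := by
    intro u v M hu hv
    have := (convex_Iio M) hu hv ha hb hab
    simpa using this
  have k1 := key (|p 2| + |p 1|) (|q 2| + |q 1|) 1 (by linarith [hp.1]) (by linarith [hq.1])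
  have k2 := key (|p 2| + α * |p 0|) (|q 2| + α * |q 0|) hh (by linarith [hp.2])
    (by linarith [hq.2])
  have t0 := mul_le_mul_of_nonneg_left (t 0) hα.le
  exact ⟨by linarith [t 1, t 2], by linarith [t 2]⟩

lemma lower' {α κ : ℝ} (hα : 0 < α) (hα1 : α ≤ 1 / 100) (hκ : 0 < κ) :
    ∃ K : ℝ, 0 ≤ K ∧ ∀ x0 m m' : ℝ, x0 ≠ 0 → |m| ≤ 1 / 100 → |m'| ≤ 1 / 100 → ∃ φ : V → V,
      ContDiff ℝ 1 φ ∧
      HasCompactSupport φ ∧ tsupport φ ⊆ Om α ∧ (∀ p, φ p 0 ^ 2 + φ p 1 ^ 2 ≤ 1) ∧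
      (∀ p, |φ p 2| ≤ K) ∧
      (∀ p, dv φ p ≠ 0 → p 0 ≠ 0 ∧ |p 1 - m * p 0| ≤ κ * |p 0| ∧ |p 2 - m' * p 0| ≤ κ * |p 0|) ∧
      4 * MM - α ^ 2 * dl ^ 2 / 50 ≤ ∫ p in {p : V | 0 < p 0 / x0}, dv φ p := by
  obtain ⟨K, hK, H⟩ := lower hα hα1 hκ
  refine ⟨K, hK, fun x0 m m' hx hm hm' => ?_⟩
  obtain ⟨φ, h1, h2, h3, h4, h5, h6, h7⟩ := H m m' hm hm'
  rcases lt_or_gt_of_ne hx with h | h
  · refine ⟨φ, h1, h2, h3, h4, h5, h6, ?_⟩
    have : {p : V | 0 < p 0 / x0} = {p : V | p 0 < 0} := by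
      ext p; simp [div_pos_iff, h, h.not_gt]
    rwa [this]
  · have e1 : ∀ p, sc 1 p = p := fun p => by
      ext i; fin_cases i <;> simp [sc_0, sc_1, sc_2]
    have e2 : ∀ p, dv (cj (-1) 1 1 φ) p = -dv φ p := fun p => by
      rw [dv_cj h1 _ (mul_one 1), e1]; ring
    refine ⟨cj (-1) 1 1 φ, cj_cd h1 _ _ _, cj_cs h2 _ (mul_one 1), fun p hp => h3 ?_,
      fun p => by simpa [cj, e1] using h4 p, fun p => by simpa [cj, e1] using h5 p,
      fun p hp => h6 p fun h0 => hp (by rw [e2, h0, neg_zero]), ?_⟩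
    · simpa [e1] using cj_supp φ _ _ _ hp
    · have hm : MeasurableSet {p : V | 0 < p 0 / x0} :=
        (isOpen_lt (by fun_prop) (by fun_prop)).measurableSet
      have h8 := integral_add_compl hm (integrable_dv h1 h2)
      rw [integral_dv_zero h1 h2] at h8
      have h9 : ∫ p in {p : V | 0 < p 0 / x0}ᶜ, dv φ p = ∫ p in {p : V | p 0 < 0}, dv φ p := by
        refine setIntegral_eq_of_subset_of_forall_sdiff_eq_zero hm.compl (fun p hp => ?_)
          fun p hp => ?_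
        · exact not_lt.2 (div_nonpos_of_nonpos_of_nonneg (le_of_lt hp) h.le)
        · by_contra h0
          have k1 := (h6 p h0).1
          have k2 : 0 < p 0 := lt_of_le_of_ne (not_lt.1 hp.2) k1.symm
          exact hp.1 (div_pos k2 h)
      simp only [e2, integral_neg]
      linarith

theorem counter {c : ℝ} (hc : 0 < c) : ∃ Ω E : Set V, IsOpen Ω ∧ Ω.Nonempty ∧ Convex ℝ Ω ∧
    Bornology.IsBounded Ω ∧ (∀ x ∈ Ω, -x ∈ Ω) ∧ MeasurableSet E ∧ E ⊆ Ω ∧
    volume E = volume Ω / 2 ∧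
    (∀ F, MeasurableSet F → F ⊆ Ω → volume F = volume E → Per Ω E ≤ Per Ω F) ∧
    ∀ Γ : ConvexCone ℝ V, volume ((Ω ∩ (Γ : Set V)) \ E) = 0 →
      volume ((Ω ∩ {x | -x ∈ Γ}) ∩ E) = 0 →
      ¬ ENNReal.ofReal c * volume Ω ≤ volume (Ω ∩ (Γ : Set V)) := by
  have hdl : dl = 1 / 10000 := rfl
  obtain ⟨ρ, hρe⟩ : ∃ ρ, ρ = c / 6144 := ⟨_, rfl⟩
  have hρ : 0 < ρ := by rw [hρe]; positivity
  obtain ⟨α, hαe⟩ : ∃ α, α = min (1 / 100) (ρ / 600) := ⟨_, rfl⟩
  have hα : 0 < α := by rw [hαe]; exact lt_min (by norm_num) (by positivity)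
  have hα1 : α ≤ 1 / 100 := by rw [hαe]; exact min_le_left _ _
  have hα2 : 6 * α / ρ ≤ 1 / 100 := by
    have : α ≤ ρ / 600 := by rw [hαe]; exact min_le_right _ _
    rw [div_le_iff₀ hρ]; linarith
  obtain ⟨K, hK, HL⟩ := lower' (κ := α * ρ / 4) hα hα1 (by positivity)
  obtain ⟨F, hF1, hF2, hF3, HU⟩ := upper hα hα1
  obtain ⟨g, hge⟩ : ∃ g, g = α ^ 2 * dl ^ 2 := ⟨_, rfl⟩
  rw [← hge] at HL HU
  have hg : 0 < g := by rw [hge, hdl]; positivity
  have hg1 : g ≤ 1 := by rw [hge, hdl]; nlinarith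
  obtain ⟨ε, hεe⟩ : ∃ ε, ε = g / 10000 / (K + 1) := ⟨_, rfl⟩
  have hε : 0 < ε := by rw [hεe]; positivity
  have hεK : ε * K ≤ g / 10000 := by
    have : ε * (K + 1) = g / 10000 := by rw [hεe]; field_simp
    nlinarith
  have i1 : ε * ε⁻¹ = 1 := mul_inv_cancel₀ hε.ne'
  have i2 : ε⁻¹ * ε = 1 := inv_mul_cancel₀ hε.ne'
  have hM : MM ≤ 1 / 2 := by unfold MM hh dl; norm_num
  have hM' : 1 / 4 ≤ MM := by unfold MM hh dl; norm_num
  set Ω := sc ε '' Om α with hΩ
  have hΩo : IsOpen Ω := by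
    rw [hΩ, image_sc i1]; exact (isOpen_Om α).preimage (sc _).continuous
  have hΩb : Bornology.IsBounded Ω := (sc ε).lipschitz.isBounded_image (isBounded_Om hα)
  have hF' : MeasurableSet (sc ε '' F) := by
    rw [image_sc i1]; exact (sc _).continuous.measurable hF1
  have hP : Per Ω (sc ε '' F) ≤ ENNReal.ofReal (ε * (4 * MM - g / 49)) := by
    refine iSup_le fun φ => ENNReal.ofReal_le_ofReal ?_
    rw [integral_sc i2 hε.le hF1]
    have := HU (cj 1 ε⁻¹ ε φ.1) (cj_cd φ.2.cd _ _ _) (cj_cs φ.2.cs _ i2) (fun p hp => ?_) fun p => ?_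
    · simp only [dv_cj φ.2.cd _ i2, one_mul] at this
      gcongr
    · have h1 := φ.2.sub (cj_supp _ _ _ _ hp)
      rw [hΩ, image_sc i1, mem_preimage, sc_sc i2] at h1
      exact h1
    · simp only [cj, one_smul, sc_0, sc_1]
      have h1 := φ.2.nm (sc ε p)
      have h2 := EuclideanSpace.real_norm_sq_eq (φ.1 (sc ε p))
      rw [Fin.sum_univ_three] at h2
      have h3 := pow_le_one₀ (n := 2) (norm_nonneg _) h1
      nlinarith [sq_nonneg (φ.1 (sc ε p) 2)]
  obtain ⟨E, hE1, hE2, hE3, hE4⟩ := exists_min hΩo hΩb.measure_lt_top.ne hF' (image_mono hF2)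
    (ne_top_of_le_ne_top ENNReal.ofReal_ne_top hP)
  have hneg : ∀ p ∈ Om α, -p ∈ Om α := fun p hp => by simpa [Om] using hp
  refine ⟨Ω, E, hΩo, ⟨sc ε 0, 0, by simp [Om, hh, dl]; norm_num, rfl⟩,
    (convex_Om hα).linear_image (sc ε).toLinearMap, hΩb, ?_, hE1, hE2, ?_,
    fun G h1 h2 h3 => hE4 G h1 h2 (h3.trans hE3), fun Γ n1 n2 hv => ?_⟩
  · rintro _ ⟨p, hp, rfl⟩
    exact ⟨-p, hneg p hp, map_neg _ _⟩
  · rw [hE3, hΩ, volume_sc hε.le, volume_sc hε.le, hF3, mul_div_assoc]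
  · let Γ' : ConvexCone ℝ V := Γ.comap (sc ε).toLinearMap
    have hΓ' : ∀ p, p ∈ Γ' ↔ sc ε p ∈ Γ := fun p => Iff.rfl
    have e1 : Ω ∩ (Γ : Set V) = sc ε '' (Om α ∩ Γ') := (image_inter_preimage _ _ _).symm
    rw [e1, hΩ, volume_sc hε.le, volume_sc hε.le, mul_left_comm,
      ENNReal.mul_le_mul_iff_right (by simpa using hε) ENNReal.ofReal_ne_top] at hv
    obtain ⟨x0, m, m', hx0, hm, hm', ht⟩ := cone_tube hα hc Γ' hv
    rw [← hρe] at hm hm' ht
    obtain ⟨φ, h1, h2, h3, h4, h5, h6, h7⟩ := HL x0 m m' hx0 (hm.trans hα2) (hm'.trans hα2)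
    have hE' : MeasurableSet (sc ε ⁻¹' E) := (sc ε).continuous.measurable hE1
    have hms : MeasurableSet {p : V | 0 < p 0 / x0} :=
      (isOpen_lt (by fun_prop) (by fun_prop)).measurableSet
    have null : ∀ N : Set V, volume N = 0 → ∀ᵐ p, sc ε p ∉ N := by
      intro N hN
      have : volume (sc ε ⁻¹' N) = 0 := by
        rw [← image_sc i2, volume_sc (by positivity), hN, mul_zero]
      exact measure_eq_zero_iff_ae_notMem.1 this
    have h8 : ∫ p in sc ε ⁻¹' E, dv φ p = ∫ p in {p : V | 0 < p 0 / x0}, dv φ p := by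
      rw [← integral_indicator hE', ← integral_indicator hms]
      refine integral_congr_ae ?_
      filter_upwards [null _ n1, null _ n2] with p k1 k2
      by_cases h0 : dv φ p = 0
      · simp [indicator, h0]
      · obtain ⟨a1, a2, a3⟩ := h6 p h0
        have a4 : p ∈ Om α := h3 (by by_contra h; exact h0 (dv_eq_zero h))
        have a5 : sc ε p ∈ Ω := ⟨p, a4, rfl⟩
        by_cases hp : 0 < p 0 / x0
        · have a6 : sc ε p ∈ E := by
            by_contra h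
            exact k1 ⟨⟨a5, (hΓ' p).1 (ht p hp a2 a3)⟩, h⟩
          rw [indicator_of_mem (show p ∈ sc ε ⁻¹' E from a6),
            indicator_of_mem (show p ∈ {p : V | 0 < p 0 / x0} from hp)]
        · have a6 : sc ε p ∉ E := by
            intro h
            refine k2 ⟨⟨a5, ?_⟩, h⟩
            have := (hΓ' _).1 (ht (-p) ?_ ?_ ?_)
            · rwa [map_neg] at this
            · have := lt_of_le_of_ne (not_lt.1 hp) (div_ne_zero a1 hx0)
              simp only [PiLp.neg_apply, neg_div]; linarith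
            · simp only [PiLp.neg_apply, abs_neg]
              rwa [show -p 1 - m * -p 0 = -(p 1 - m * p 0) by ring, abs_neg]
            · simp only [PiLp.neg_apply, abs_neg]
              rwa [show -p 2 - m' * -p 0 = -(p 2 - m' * p 0) by ring, abs_neg]
          rw [indicator_of_notMem (show p ∉ sc ε ⁻¹' E from a6),
            indicator_of_notMem (show p ∉ {p : V | 0 < p 0 / x0} from hp)]
    have hθ : 0 < 1 + ε * K := by positivity
    have hT : Test Ω (cj (1 + ε * K)⁻¹ ε ε⁻¹ φ) := by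
      refine ⟨cj_cd h1 _ _ _, cj_cs h2 _ i1, fun p hp => ?_, fun p => ?_⟩
      · rw [hΩ, image_sc i1]
        exact h3 (cj_supp _ _ _ _ hp)
      · rw [cj, norm_smul, Real.norm_of_nonneg (by positivity), inv_mul_le_iff₀ hθ, mul_one]
        refine (abs_le_of_sq_le_sq' ?_ hθ.le).2
        rw [EuclideanSpace.real_norm_sq_eq, Fin.sum_univ_three, sc_0, sc_1, sc_2]
        have k1 := h4 (sc ε⁻¹ p)
        have k2 : φ (sc ε⁻¹ p) 2 ^ 2 ≤ K ^ 2 := by
          rw [← sq_abs]; have := h5 (sc ε⁻¹ p); gcongr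
        have k3 : 0 ≤ ε * K := by positivity
        have k4 := mul_le_mul_of_nonneg_left k2 (sq_nonneg ε)
        nlinarith
    have h9 : ENNReal.ofReal (∫ p in E, dv (cj (1 + ε * K)⁻¹ ε ε⁻¹ φ) p) ≤ Per Ω E :=
      le_iSup (fun φ : {φ // Test Ω φ} => ENNReal.ofReal (∫ x in E, dv φ.1 x)) ⟨_, hT⟩
    have h10 := h9.trans ((hE4 _ hF' (image_mono hF2) rfl).trans hP)
    have e2 : E = sc ε '' (sc ε ⁻¹' E) :=
      (image_preimage_eq E (Function.RightInverse.surjective (sc_sc i1))).symm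
    rw [ENNReal.ofReal_le_ofReal_iff (by have : 0 ≤ 4 * MM - g / 49 := by linarith
                                         positivity), e2, integral_sc i2 hε.le hE'] at h10
    simp only [dv_cj h1 _ i1, sc_sc i2, integral_const_mul, h8] at h10
    have h11 := le_of_mul_le_mul_left h10 hε
    rw [inv_mul_le_iff₀ hθ] at h11
    have k3 : 0 ≤ ε * K := by positivity
    nlinarith

end Pool.Agent.H55Z.Iso
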